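import Pool.Agent.N241.MS.Defs
import Pool.Agent.H659R3.BigMCG.Wind

/-!
# Statements of the pieces of project MS
-/

set_option autoImplicit false

open Topology

namespace Pool.Agent.N241.MS

open Pool.Agent.H659R3.BigMCG (HasWinding)

/-- (WND) a closed curve which crosses the negative half axis exactly once, downwards as `t`
increases through `t0`... winds once. -/
def S_WND : Prop := ∀ (g : ℝ → ℂ) (t0 : ℝ), Continuous g → (∀ t, g (t + 1) = g t) →
  (∀ t, t0 < t → t < t0 + 1 → g t ∈ Complex.slitPlane) → (g t0).im = 0 → (g t0).re < 0 →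
  (∀ᶠ t in 𝓝[>] t0, (g t).im < 0) → (∀ᶠ t in 𝓝[<] t0, 0 < (g t).im) → HasWinding g 1

/-- The nonzero complex numbers. -/
abbrev Cx : Type := {z : ℂ // z ≠ 0}

/-- Every map to the punctured plane has winding number zero on the loop `l`. -/
def NH {S : Type} [TopologicalSpace S] (l : Loop S) : Prop :=
  ∀ φ : C(S, Cx), HasWinding (fun t : ℝ => (φ (l (t : S1)) : ℂ)) 0

/-- (CLP) the collapse of the complement of an annulus. -/
def S_CLP : Prop := ∀ (S : Type) [TopologicalSpace S] [T2Space S] (K : S1 × ℝ → S),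
  IsOpenEmbedding K → ∃ φ : C(S, Cx),
    (∀ t s, |s| ≤ 1 → (φ (K (t, s)) : ℂ) = -Complex.exp ((Real.pi * s : ℝ) * Complex.I)) ∧
    ∀ x, (∀ t s, |s| ≤ 1 → x ≠ K (t, s)) → (φ x : ℂ) = 1

/-- (AVO) a null-homologous simple loop which meets the core of an annulus at most once avoids
a parallel curve of the annulus. -/
def S_AVO : Prop := ∀ (S : Type) [TopologicalSpace S] [T2Space S] (l : Loop S),
  Function.Injective l → NH l → ∀ K : S1 × ℝ → S, IsOpenEmbedding K →
  (Set.range l ∩ Set.range (fun t => K (t, 0))).encard ≤ 1 → ∃ s : ℝ, ∀ t, K (t, s) ∉ Set.range l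

/-- `l` is the neck of the surface: the circle `u = 0`. -/
def IsNeck (l : Loop Surf) : Prop := ∀ t : ℝ, (l (t : S1)).val =
  (((Real.cos (2 * Real.pi * t) : ℝ) : AddCircle (4 : ℝ)),
    ((Real.sin (2 * Real.pi * t) : ℝ) : AddCircle (4 : ℝ)), (0 : ℝ))

/-- (NCK) the neck is a simple closed curve. -/
def S_NCK : Prop := ∃ c : Curve Surf, IsNeck c.loop

/-- (ESS) the neck is essential. -/
def S_ESS : Prop := ∀ l : Loop Surf, IsNeck l → l.Essential

/-- (NUL) the neck is null-homologous. -/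
def S_NUL : Prop := ∀ l : Loop Surf, IsNeck l → NH l

/-- (GEN) the general theorem. -/
def S_GEN : Prop := ∀ (S : Type) [TopologicalSpace S] [T2Space S] (c : Curve S),
  c.loop.Essential → NH c.loop → ∃ Γ : Set (Cls S), MaximalOneSystem Γ ∧ c.cls ∈ Γ ∧
    (∀ γ ∈ Γ, geo c.cls γ = 0) ∧
    ∀ R : Realization Γ, ∃ x ∈ R.compl, ¬ IsDisk (connectedComponentIn R.compl x)

end Pool.Agent.N241.MS
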