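import Mathlib
import Pool.Agent.N241.MS.Stm

/-!
# MS/AVO (helper401): pushing the core of an annulus off a null-homologous loop
-/

set_option autoImplicit false

open Topology Set

namespace Pool.Agent.N241.MS

open Pool.Agent.H659R3.BigMCG (HasWinding)

namespace AVO_

theorem ne_coe {a t : ℝ} (h : t ≠ a) (h1 : |t - a| < 1) : (t : S1) ≠ (a : S1) := by
  intro he
  have h2 := abs_lt.1 h1
  have ht : t ∈ Ico (min a t) (min a t + 1) := by
    refine ⟨min_le_right _ _, ?_⟩
    rcases le_total a t with h3 | h3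
    · rw [min_eq_left h3]; linarith
    · rw [min_eq_right h3]; linarith
  have ha : a ∈ Ico (min a t) (min a t + 1) := by
    refine ⟨min_le_left _ _, ?_⟩
    rcases le_total a t with h3 | h3
    · rw [min_eq_left h3]; linarith
    · rw [min_eq_right h3]; linarith
  exact h ((AddCircle.coe_eq_coe_iff_of_mem_Ico ht ha).1 he)

theorem exp_im (s : ℝ) :
    (-Complex.exp ((Real.pi * s : ℝ) * Complex.I)).im = - Real.sin (Real.pi * s) := by
  rw [Complex.neg_im, Complex.exp_ofReal_mul_I_im]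

theorem exp_re (s : ℝ) :
    (-Complex.exp ((Real.pi * s : ℝ) * Complex.I)).re = - Real.cos (Real.pi * s) := by
  rw [Complex.neg_re, Complex.exp_ofReal_mul_I_re]

theorem sin_pos' {s : ℝ} (h0 : 0 < s) (h1 : s < 1) : 0 < Real.sin (Real.pi * s) := by
  apply Real.sin_pos_of_pos_of_lt_pi
  · exact mul_pos Real.pi_pos h0
  · have := Real.pi_pos
    nlinarith

theorem sin_neg' {s : ℝ} (h0 : s < 0) (h1 : -1 < s) : Real.sin (Real.pi * s) < 0 := by
  have h2 := sin_pos' (s := -s) (by linarith) (by linarith)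
  rw [mul_neg, Real.sin_neg] at h2
  linarith

theorem slit {s : ℝ} (h0 : s ≠ 0) (h1 : |s| ≤ 1) :
    -Complex.exp ((Real.pi * s : ℝ) * Complex.I) ∈ Complex.slitPlane := by
  rw [Complex.mem_slitPlane_iff]
  rcases lt_or_eq_of_le h1 with h2 | h2
  · right
    rw [exp_im]
    have h3 := abs_lt.1 h2
    rcases lt_or_gt_of_ne h0 with h4 | h4
    · have := sin_neg' h4 h3.1
      linarith
    · have := sin_pos' h4 h3.2
      linarith
  · left
    rw [exp_re]
    rcases eq_or_eq_neg_of_abs_eq h2 with h3 | h3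
    · rw [h3, mul_one, Real.cos_pi]; norm_num
    · rw [h3, mul_neg, mul_one, Real.cos_neg, Real.cos_pi]; norm_num

variable {S : Type} [TopologicalSpace S]

theorem opp [T2Space S] (hclp : S_CLP) (hwnd : S_WND) {l : Loop S} (hNH : NH l) {K : S1 × ℝ → S}
    (hK : IsOpenEmbedding K) {a d : ℝ} {b : S1} (hd : 0 < d) (hab : l (a : S1) = K (b, 0))
    (huniq : ∀ t : ℝ, ∀ τ, l (t : S1) = K (τ, 0) → (t : S1) = (a : S1))
    (hR : ∀ t ∈ Ioo a (a + d), ∃ τ σ, l (t : S1) = K (τ, σ) ∧ 0 < σ ∧ σ < 1)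
    (hL : ∀ t ∈ Ioo (a - d) a, ∃ τ σ, l (t : S1) = K (τ, σ) ∧ -1 < σ ∧ σ < 0) : False := by
  obtain ⟨φ, h1, h2⟩ := hclp S K hK
  set g : ℝ → ℂ := fun t => (φ (l (t : S1)) : ℂ) with hg
  have hgc : Continuous g := by
    have h3 : Continuous fun t : ℝ => (t : S1) := AddCircle.continuous_mk' 1
    exact continuous_subtype_val.comp (φ.continuous.comp (l.continuous.comp h3))
  have hgp : ∀ t, g (t + 1) = g t := by
    intro t
    simp only [hg]
    rw [AddCircle.coe_add_period]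
  have hga : g a = -1 := by
    simp only [hg]
    rw [hab, h1 b 0 (by simp)]
    simp
  have hw : HasWinding g 1 := by
    refine hwnd g a hgc hgp ?_ (by rw [hga]; simp) (by rw [hga]; simp) ?_ ?_
    · intro t ht1 ht2
      have hne : (t : S1) ≠ (a : S1) := ne_coe ht1.ne' (by rw [abs_lt]; constructor <;> linarith)
      by_cases h3 : ∃ τ σ, |σ| ≤ 1 ∧ l (t : S1) = K (τ, σ)
      · obtain ⟨τ, σ, hσ, hl⟩ := h3
        simp only [hg]
        rw [hl, h1 τ σ hσ]
        refine slit ?_ hσ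
        rintro rfl
        exact hne (huniq t τ hl)
      · push Not at h3
        simp only [hg]
        rw [h2 (l (t : S1)) (fun τ σ hσ => h3 τ σ hσ)]
        exact Complex.one_mem_slitPlane
    · have h3 : Ioo a (a + d) ∈ 𝓝[>] a := Ioo_mem_nhdsGT (by linarith)
      filter_upwards [h3] with t ht
      obtain ⟨τ, σ, hl, h4, h5⟩ := hR t ht
      simp only [hg]
      rw [hl, h1 τ σ (by rw [abs_le]; constructor <;> linarith), exp_im]
      have := sin_pos' h4 h5
      linarith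
    · have h3 : Ioo (a - d) a ∈ 𝓝[<] a := Ioo_mem_nhdsLT (by linarith)
      filter_upwards [h3] with t ht
      obtain ⟨τ, σ, hl, h4, h5⟩ := hL t ht
      simp only [hg]
      rw [hl, h1 τ σ (by rw [abs_le]; constructor <;> linarith), exp_im]
      have := sin_neg' h5 h4
      linarith
  have h3 := hw.unique (hNH φ)
  exact one_ne_zero h3

theorem same [T2Space S] {l : Loop S} {K : S1 × ℝ → S}
    (hK : IsOpenEmbedding K) {a d : ℝ} {b : S1} (hd : 0 < d) (hd1 : d ≤ 1 / 2)
    (hab : l (a : S1) = K (b, 0))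
    (huniq : ∀ t : ℝ, ∀ τ, l (t : S1) = K (τ, 0) → (t : S1) = (a : S1))
    (hR : ∀ t ∈ Ioo a (a + d), ∃ τ σ, l (t : S1) = K (τ, σ) ∧ 0 < σ)
    (hL : ∀ t ∈ Ioo (a - d) a, ∃ τ σ, l (t : S1) = K (τ, σ) ∧ 0 < σ) :
    ∃ s : ℝ, ∀ t, K (t, s) ∉ Set.range l := by
  set A : Set S := (fun t : ℝ => l (t : S1)) '' Icc (a + d / 2) (a + 1 - d / 2) with hA
  have hlc : Continuous fun t : ℝ => l (t : S1) := by
    have h3 : Continuous fun t : ℝ => (t : S1) := AddCircle.continuous_mk' 1
    exact l.continuous.comp h3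
  have hAc : IsClosed A := (isCompact_Icc.image hlc).isClosed
  have hopen : IsOpen (K ⁻¹' Aᶜ) := hAc.isOpen_compl.preimage hK.continuous
  have hsub : (Set.univ : Set S1) ×ˢ ({0} : Set ℝ) ⊆ K ⁻¹' Aᶜ := by
    rintro ⟨τ, σ⟩ ⟨-, hσ⟩
    rw [mem_singleton_iff] at hσ
    simp only at hσ
    subst hσ
    rintro ⟨t, ht, he⟩
    have h1 := huniq t τ he
    refine ne_coe ?_ ?_ h1
    · have := ht.1
      intro h; linarith
    · have h3 := ht.1
      have h4 := ht.2
      rw [abs_lt]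
      constructor <;> linarith
  obtain ⟨u, v, hu, hv, huu, hvv, huv⟩ := generalized_tube_lemma isCompact_univ
    isCompact_singleton hopen hsub
  obtain ⟨η, hη, hball⟩ := Metric.isOpen_iff.1 hv 0 (hvv (mem_singleton 0))
  refine ⟨-(η / 2), fun τ hmem => ?_⟩
  obtain ⟨y, hy⟩ := hmem
  have hnA : K (τ, -(η / 2)) ∉ A := by
    have h1 : ((τ, -(η / 2)) : S1 × ℝ) ∈ u ×ˢ v := by
      refine ⟨huu (mem_univ _), hball ?_⟩
      rw [Metric.mem_ball, dist_zero_right, norm_neg, Real.norm_eq_abs, abs_of_pos (by linarith)]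
      linarith
    exact huv h1
  have h2 : y ∈ ((fun t : ℝ => (t : S1)) '' Ico (a - d / 2) (a - d / 2 + 1)) := by
    have h3 := AddCircle.coe_image_Ico_eq (1 : ℝ) (a - d / 2)
    have h4 : y ∈ (Set.univ : Set S1) := mem_univ y
    rw [← h3] at h4
    exact h4
  obtain ⟨t, ht, rfl⟩ := h2
  rcases lt_or_ge t (a + d / 2) with h3 | h3
  · rcases lt_trichotomy t a with h4 | h4 | h4
    · obtain ⟨τ', σ, h5, h6⟩ := hL t ⟨by have := ht.1; linarith, h4⟩
      have h7 := hK.injective (h5.symm.trans hy)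
      have h8 := congrArg Prod.snd h7
      simp only at h8
      linarith
    · subst h4
      have h7 := hK.injective (hab.symm.trans hy)
      have h8 := congrArg Prod.snd h7
      simp only at h8
      linarith
    · obtain ⟨τ', σ, h5, h6⟩ := hR t ⟨h4, by linarith⟩
      have h7 := hK.injective (h5.symm.trans hy)
      have h8 := congrArg Prod.snd h7
      simp only at h8
      linarith
  · apply hnA
    exact ⟨t, ⟨h3, by have := ht.2; linarith⟩, hy⟩

theorem sign {f : ℝ → ℝ} {p q : ℝ} (hf : ContinuousOn f (Ioo p q)) (h0 : ∀ t ∈ Ioo p q, f t ≠ 0) :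
    (∀ t ∈ Ioo p q, 0 < f t) ∨ ∀ t ∈ Ioo p q, f t < 0 := by
  by_contra hc
  push Not at hc
  obtain ⟨⟨t1, ht1, h1⟩, ⟨t2, ht2, h2⟩⟩ := hc
  have h3 := isPreconnected_Ioo.intermediate_value ht1 ht2 hf
  obtain ⟨t, ht, h4⟩ := h3 ⟨h1, h2⟩
  exact h0 t ht h4

end AVO_

open AVO_ in
theorem avo (hclp : S_CLP) (hwnd : S_WND) : S_AVO := by
  intro S _ _ l hl hNH K hK hcard
  by_cases hne : (Set.range l ∩ Set.range (fun t => K (t, 0))).Nonempty
  · obtain ⟨x0, ⟨a', ha'⟩, ⟨b, hb⟩⟩ := hne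
    simp only at hb
    obtain ⟨a, rfl⟩ := QuotientAddGroup.mk_surjective a'
    have hab : l (a : S1) = K (b, 0) := ha'.trans hb.symm
    have huniq : ∀ t : ℝ, ∀ τ, l (t : S1) = K (τ, 0) → (t : S1) = (a : S1) := by
      intro t τ ht
      apply hl
      have h1 := Set.encard_le_one_iff.1 hcard (l (t : S1)) (l (a : S1))
        ⟨⟨_, rfl⟩, ⟨τ, ht.symm⟩⟩ ⟨⟨_, rfl⟩, ⟨b, hab.symm⟩⟩
      exact h1
    set O : Set S := K '' {p | |p.2| < 1} with hO
    have hOo : IsOpen O := by
      apply hK.isOpenMap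
      exact isOpen_lt (continuous_abs.comp continuous_snd) continuous_const
    have hlc : Continuous fun t : ℝ => l (t : S1) := by
      have h3 : Continuous fun t : ℝ => (t : S1) := AddCircle.continuous_mk' 1
      exact l.continuous.comp h3
    have haO : a ∈ (fun t : ℝ => l (t : S1)) ⁻¹' O := by
      show l (a : S1) ∈ O
      rw [hab]
      exact ⟨(b, 0), by simp, rfl⟩
    obtain ⟨ε, hε, hball⟩ := Metric.isOpen_iff.1 (hOo.preimage hlc) a haO
    set d : ℝ := min ε (1 / 2) with hd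
    have hd0 : 0 < d := lt_min hε (by norm_num)
    have hd1 : d ≤ 1 / 2 := min_le_right _ _
    have hdε : d ≤ ε := min_le_left _ _
    have hin : ∀ t ∈ Ioo (a - d) (a + d), l (t : S1) ∈ O := by
      intro t ht
      apply hball
      rw [Metric.mem_ball, Real.dist_eq, abs_lt]
      constructor
      · have := ht.1; linarith
      · have := ht.2; linarith
    have : Nonempty (S1 × ℝ) := ⟨(0, 0)⟩
    let e := hK.toOpenPartialHomeomorph K
    let sg : ℝ → ℝ := fun t => (e.symm (l (t : S1))).2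
    have hrange : ∀ t ∈ Ioo (a - d) (a + d), l (t : S1) ∈ Set.range K := by
      intro t ht
      obtain ⟨p, -, hp⟩ := hin t ht
      exact ⟨p, hp⟩
    have hsymm : ∀ p, e.symm (K p) = p := fun p => hK.toOpenPartialHomeomorph_left_inv K
    have hsgc : ContinuousOn sg (Ioo (a - d) (a + d)) := by
      have h1 : ContinuousOn e.symm (Set.range K) := by
        have := e.continuousOn_symm
        rwa [hK.toOpenPartialHomeomorph_target K] at this
      exact continuous_snd.comp_continuousOn (h1.comp hlc.continuousOn hrange)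
    have hsg : ∀ t ∈ Ioo (a - d) (a + d), |sg t| < 1 ∧ ∃ τ, l (t : S1) = K (τ, sg t) := by
      intro t ht
      obtain ⟨p, hp1, hp2⟩ := hin t ht
      have h1 : e.symm (l (t : S1)) = p := by rw [← hp2, hsymm]
      have h2 : sg t = p.2 := by
        show (e.symm (l (t : S1))).2 = p.2
        rw [h1]
      rw [h2]
      exact ⟨hp1, p.1, hp2.symm⟩
    have hsg0 : ∀ t ∈ Ioo (a - d) (a + d), t ≠ a → sg t ≠ 0 := by
      intro t ht hta h0
      obtain ⟨-, τ, hτ⟩ := hsg t ht
      rw [h0] at hτ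
      refine ne_coe hta ?_ (huniq t τ hτ)
      have h3 := ht.1
      have h4 := ht.2
      rw [abs_lt]
      constructor <;> linarith
    have hR : (∀ t ∈ Ioo a (a + d), 0 < sg t) ∨ ∀ t ∈ Ioo a (a + d), sg t < 0 :=
      sign (hsgc.mono (Ioo_subset_Ioo (by linarith) le_rfl)) fun t ht =>
        hsg0 t ⟨by have := ht.1; linarith, ht.2⟩ ht.1.ne'
    have hL : (∀ t ∈ Ioo (a - d) a, 0 < sg t) ∨ ∀ t ∈ Ioo (a - d) a, sg t < 0 :=
      sign (hsgc.mono (Ioo_subset_Ioo le_rfl (by linarith))) fun t ht =>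
        hsg0 t ⟨ht.1, by have := ht.2; linarith⟩ ht.2.ne
    have hRm : ∀ t ∈ Ioo a (a + d), t ∈ Ioo (a - d) (a + d) := fun t ht =>
      ⟨by have := ht.1; linarith, ht.2⟩
    have hLm : ∀ t ∈ Ioo (a - d) a, t ∈ Ioo (a - d) (a + d) := fun t ht =>
      ⟨ht.1, by have := ht.2; linarith⟩
    let K' : S1 × ℝ → S := fun p => K (p.1, -p.2)
    have hK' : IsOpenEmbedding K' :=
      hK.comp ((Homeomorph.refl S1).prodCongr (Homeomorph.neg ℝ)).isOpenEmbedding
    have hab' : l (a : S1) = K' (b, 0) := by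
      show l (a : S1) = K (b, -0)
      rw [neg_zero]; exact hab
    have huniq' : ∀ t : ℝ, ∀ τ, l (t : S1) = K' (τ, 0) → (t : S1) = (a : S1) := by
      intro t τ ht
      have ht' : l (t : S1) = K (τ, -0) := ht
      rw [neg_zero] at ht'
      exact huniq t τ ht'
    rcases hR with hR | hR <;> rcases hL with hL | hL
    · refine same hK hd0 hd1 hab huniq (fun t ht => ?_) (fun t ht => ?_)
      · obtain ⟨-, τ, hτ⟩ := hsg t (hRm t ht)
        exact ⟨τ, sg t, hτ, hR t ht⟩
      · obtain ⟨-, τ, hτ⟩ := hsg t (hLm t ht)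
        exact ⟨τ, sg t, hτ, hL t ht⟩
    · exfalso
      refine opp hclp hwnd hNH hK hd0 hab huniq (fun t ht => ?_) (fun t ht => ?_)
      · obtain ⟨h1, τ, hτ⟩ := hsg t (hRm t ht)
        exact ⟨τ, sg t, hτ, hR t ht, (abs_lt.1 h1).2⟩
      · obtain ⟨h1, τ, hτ⟩ := hsg t (hLm t ht)
        exact ⟨τ, sg t, hτ, (abs_lt.1 h1).1, hL t ht⟩
    · exfalso
      refine opp hclp hwnd hNH hK' hd0 hab' huniq' (fun t ht => ?_) (fun t ht => ?_)
      · obtain ⟨h1, τ, hτ⟩ := hsg t (hRm t ht)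
        refine ⟨τ, -sg t, ?_, by have := hR t ht; linarith, by have := (abs_lt.1 h1).1; linarith⟩
        show l (t : S1) = K (τ, - -sg t)
        rw [neg_neg]; exact hτ
      · obtain ⟨h1, τ, hτ⟩ := hsg t (hLm t ht)
        refine ⟨τ, -sg t, ?_, by have := (abs_lt.1 h1).2; linarith, by have := hL t ht; linarith⟩
        show l (t : S1) = K (τ, - -sg t)
        rw [neg_neg]; exact hτ
    · obtain ⟨s, hs⟩ := same hK' hd0 hd1 hab' huniq' (fun t ht => by
        obtain ⟨-, τ, hτ⟩ := hsg t (hRm t ht)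
        refine ⟨τ, -sg t, ?_, by have := hR t ht; linarith⟩
        show l (t : S1) = K (τ, - -sg t)
        rw [neg_neg]; exact hτ) (fun t ht => by
        obtain ⟨-, τ, hτ⟩ := hsg t (hLm t ht)
        refine ⟨τ, -sg t, ?_, by have := hL t ht; linarith⟩
        show l (t : S1) = K (τ, - -sg t)
        rw [neg_neg]; exact hτ)
      exact ⟨-s, fun t => hs t⟩
  · refine ⟨0, fun t ht => hne ⟨K (t, 0), ht, ⟨t, rfl⟩⟩⟩

end Pool.Agent.N241.MS
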