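import Pool.Agent.N241.MS.Stm

/-!
# Project MS (helper241), CLP (helper771): collapsing the complement of an annulus
-/

set_option autoImplicit false

open Topology

namespace Pool.Agent.N241.MS.Clp_

/-- the profile -/
noncomputable def hh (s : ℝ) : ℂ :=
  -Complex.exp ((Real.pi * (max (-1) (min 1 s)) : ℝ) * Complex.I)

theorem hh_cont : Continuous hh := by
  unfold hh
  fun_prop

theorem hh_in {s : ℝ} (hs : |s| ≤ 1) : hh s = -Complex.exp ((Real.pi * s : ℝ) * Complex.I) := by
  obtain ⟨h1, h2⟩ := abs_le.1 hs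
  unfold hh
  rw [min_eq_right h2, max_eq_right h1]

theorem hh_out {s : ℝ} (hs : 1 ≤ |s|) : hh s = 1 := by
  unfold hh
  rcases le_abs.1 hs with h | h
  · rw [min_eq_left h, max_eq_right (by norm_num), mul_one, Complex.exp_pi_mul_I, neg_neg]
  · rw [min_eq_right (by linarith), max_eq_left (by linarith)]
    have e : ((Real.pi * -1 : ℝ) : ℂ) * Complex.I = -(Real.pi * Complex.I) := by
      push_cast
      ring
    rw [e, Complex.exp_neg, Complex.exp_pi_mul_I]
    norm_num

theorem hh_ne (s : ℝ) : hh s ≠ 0 := by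
  unfold hh
  exact neg_ne_zero.2 (Complex.exp_ne_zero _)

end Pool.Agent.N241.MS.Clp_

namespace Pool.Agent.N241.MS

open Pool.Agent.N241.MS.Clp_

theorem clp : S_CLP := by
  classical
  intro S _ _ K hK
  haveI : Fact ((0 : ℝ) < 1) := ⟨one_pos⟩
  set f : S → ℂ := Function.extend K (fun p => hh p.2) (fun _ => 1) with hf
  have hfK : ∀ p, f (K p) = hh p.2 := fun p => hK.injective.extend_apply _ _ p
  have hfo : ∀ x, x ∉ Set.range K → f x = 1 := fun x hx => Function.extend_apply' _ _ _ hx
  have hcl : IsClosed (K '' (Set.univ ×ˢ Set.Icc (-1 : ℝ) 1)) := by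
    refine IsCompact.isClosed ?_
    exact (isCompact_univ.prod isCompact_Icc).image hK.continuous
  have hcont : Continuous f := by
    rw [continuous_iff_continuousAt]
    intro x
    by_cases hx : x ∈ Set.range K
    · obtain ⟨p, rfl⟩ := hx
      rw [← hK.continuousAt_iff]
      have e : f ∘ K = fun p => hh p.2 := funext hfK
      rw [e]
      exact (hh_cont.comp continuous_snd).continuousAt
    · have hxC : x ∈ (K '' (Set.univ ×ˢ Set.Icc (-1 : ℝ) 1))ᶜ := by
        rintro ⟨p, _, rfl⟩
        exact hx ⟨p, rfl⟩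
      have h1 : f =ᶠ[𝓝 x] fun _ => (1 : ℂ) := by
        filter_upwards [hcl.isOpen_compl.mem_nhds hxC] with y hy
        by_cases hy2 : y ∈ Set.range K
        · obtain ⟨p, rfl⟩ := hy2
          rw [hfK]
          refine hh_out ?_
          by_contra hlt
          rw [not_le, abs_lt] at hlt
          exact hy ⟨p, ⟨Set.mem_univ _, hlt.1.le, hlt.2.le⟩, rfl⟩
        · exact hfo y hy2
      exact (continuousAt_const (y := (1 : ℂ))).congr h1.symm
  have hne : ∀ x, f x ≠ 0 := by
    intro x
    by_cases hx : x ∈ Set.range K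
    · obtain ⟨p, rfl⟩ := hx
      rw [hfK]
      exact hh_ne _
    · rw [hfo x hx]
      exact one_ne_zero
  refine ⟨⟨fun x => ⟨f x, hne x⟩, hcont.subtype_mk _⟩, ?_, ?_⟩
  · intro t s hs
    show f (K (t, s)) = _
    rw [hfK]
    exact hh_in hs
  · intro x hx
    show f x = 1
    by_cases hx2 : x ∈ Set.range K
    · obtain ⟨p, rfl⟩ := hx2
      rw [hfK]
      refine hh_out ?_
      by_contra hlt
      rw [not_le] at hlt
      exact hx p.1 p.2 hlt.le rfl
    · exact hfo x hx2

end Pool.Agent.N241.MS
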