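import Mathlib

/-!
# 1-systems of curves on the closed orientable surface of genus two
-/

set_option autoImplicit false

open Topology

namespace Pool.Agent.N241.MS

/-- The circle `ℝ / ℤ`. -/
abbrev S1 : Type := AddCircle (1 : ℝ)

/-- Closed curves (loops) on `S`. -/
abbrev Loop (S : Type) [TopologicalSpace S] : Type := C(S1, S)

section

variable {S : Type} [TopologicalSpace S]

/-- The loop traversed backwards. -/
def Loop.rev (l : Loop S) : Loop S := l.comp ⟨fun t => -t, continuous_neg⟩

/-- Two loops are freely homotopic, up to a reversal of the orientation. -/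
def Loop.Htp (l l' : Loop S) : Prop := l.Homotopic l' ∨ l.Homotopic l'.rev

/-- A loop on a closed surface is essential: not homotopic to a point. -/
def Loop.Essential (l : Loop S) : Prop := ∀ x : S, ¬ l.Homotopic (ContinuousMap.const _ x)

end

/-- The simple closed curves on an orientable surface `S`: the loops that extend to an open
embedding of the annulus `S¹ × ℝ`. (They are injective; and every injective loop on an orientable
surface has such an annular neighbourhood.) -/
structure Curve (S : Type) [TopologicalSpace S] where
  /-- the loop -/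
  loop : Loop S
  /-- the annular neighbourhood -/
  collar : ∃ K : S1 × ℝ → S, IsOpenEmbedding K ∧ ∀ t, K (t, 0) = loop t

variable {S : Type} [TopologicalSpace S]

/-- The set of the points of a curve. -/
def Curve.img (c : Curve S) : Set S := Set.range c.loop

theorem Loop.rev_rev (l : Loop S) : Loop.rev (Loop.rev l) = l := by
  ext t
  simp [Loop.rev]

theorem Loop.Htp.refl (l : Loop S) : Loop.Htp l l := Or.inl (ContinuousMap.Homotopic.refl l)

theorem Loop.homotopic_rev {l l' : Loop S} (h : l.Homotopic l') :
    (Loop.rev l).Homotopic (Loop.rev l') :=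
  h.comp (ContinuousMap.Homotopic.refl _)

theorem Loop.Htp.symm {l l' : Loop S} (h : Loop.Htp l l') : Loop.Htp l' l := by
  rcases h with h | h
  · exact Or.inl h.symm
  · refine Or.inr ?_
    have := Loop.homotopic_rev h.symm
    rwa [Loop.rev_rev] at this

theorem Loop.Htp.trans {l l' l'' : Loop S} (h : Loop.Htp l l') (h' : Loop.Htp l' l'') :
    Loop.Htp l l'' := by
  rcases h with h | h <;> rcases h' with h' | h'
  · exact Or.inl (h.trans h')
  · exact Or.inr (h.trans h')
  · exact Or.inr (h.trans (Loop.homotopic_rev h'))
  · refine Or.inl (h.trans ?_)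
    have := Loop.homotopic_rev h'
    rwa [Loop.rev_rev] at this

/-- Homotopy of curves, as an equivalence relation. -/
instance curveSetoid (S : Type) [TopologicalSpace S] : Setoid (Curve S) where
  r c c' := Loop.Htp c.loop c'.loop
  iseqv := ⟨fun _ => Loop.Htp.refl _, fun h => h.symm, fun h h' => h.trans h'⟩

/-- The homotopy classes of simple closed curves. -/
abbrev Cls (S : Type) [TopologicalSpace S] : Type := Quotient (curveSetoid S)

/-- The homotopy class of a curve. -/
def Curve.cls (c : Curve S) : Cls S := Quotient.mk _ c

/-- The geometric intersection number of two classes: the least number of common points of two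
simple closed curves in these classes. -/
noncomputable def geo (γ γ' : Cls S) : ℕ∞ :=
  ⨅ (c : Curve S) (c' : Curve S) (_ : c.cls = γ) (_ : c'.cls = γ'), (c.img ∩ c'.img).encard

/-- 1-systems: sets of homotopy classes of essential simple closed curves with pairwise
intersection numbers at most one. -/
def OneSystem (Γ : Set (Cls S)) : Prop :=
  (∀ γ ∈ Γ, ∀ c : Curve S, c.cls = γ → c.loop.Essential) ∧ ∀ γ ∈ Γ, ∀ γ' ∈ Γ, geo γ γ' ≤ 1

/-- A 1-system which is maximal with respect to inclusion. -/
def MaximalOneSystem (Γ : Set (Cls S)) : Prop :=
  OneSystem Γ ∧ ∀ Γ' : Set (Cls S), OneSystem Γ' → Γ ⊆ Γ' → Γ' = Γ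

/-- A realization of a set of classes in pairwise minimal position, by a locally finite family of
curves. -/
structure Realization (Γ : Set (Cls S)) where
  /-- the curve in each class -/
  rep : Γ → Curve S
  /-- it is in the class -/
  cls_rep : ∀ γ : Γ, (rep γ).cls = γ
  /-- different curves are in minimal position -/
  minimal : ∀ γ γ' : Γ, γ ≠ γ' → ((rep γ).img ∩ (rep γ').img).encard = geo (γ : Cls S) γ'
  /-- the family is locally finite -/
  locFin : LocallyFinite fun γ : Γ => (rep γ).img

/-- The complement of the curves. -/
def Realization.compl {Γ : Set (Cls S)} (R : Realization Γ) : Set S :=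
  (⋃ γ : Γ, (R.rep γ).img)ᶜ

/-- A subset of the surface is an open topological disk. -/
def IsDisk (U : Set S) : Prop := Nonempty (U ≃ₜ ℂ)

/-- A set of classes of curves fills a closed surface: for some realization in pairwise minimal
position, every component of the complement of the curves is an open disk. -/
def Fills (Γ : Set (Cls S)) : Prop :=
  ∃ R : Realization Γ, ∀ x ∈ R.compl, IsDisk (connectedComponentIn R.compl x)

/-- The closed orientable surface of genus two: the points `(x, y, u)` with `x, y ∈ ℝ / 4ℤ`,
`u ∈ ℝ` and `‖x‖² + ‖y‖² = 1 + u²`, where `‖x‖` is the distance from `x` to the nearest multiple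
of `4`. Its halves `u ≥ 0` and `u ≤ 0` are copies of the torus `(ℝ / 4ℤ)²` with the open unit disk
`‖x‖² + ‖y‖² < 1` removed, glued along the boundary circle `u = 0`. -/
abbrev Surf : Type :=
  {q : AddCircle (4 : ℝ) × AddCircle (4 : ℝ) × ℝ // ‖q.1‖ ^ 2 + ‖q.2.1‖ ^ 2 = 1 + q.2.2 ^ 2}

end Pool.Agent.N241.MS
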