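import Pool.Agent.N241.MS.Stm

/-!
# The neck is essential
-/

set_option autoImplicit false

open Topology unitInterval

namespace Pool.Agent.N241.MS

open Pool.Agent.H659R3.BigMCG

/-- The covering of the circle `ℝ / 4ℤ`. -/
theorem Ess_cov : IsCoveringMap (fun r : ℝ => (r : AddCircle (4 : ℝ))) :=
  AddCircle.isCoveringMap_coe (4 : ℝ)

/-- Two lifts which agree at a point agree. -/
theorem Ess_unique {A : Type*} [TopologicalSpace A] [PreconnectedSpace A] {X Y : A → ℝ}
    (hX : Continuous X) (hY : Continuous Y)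
    (h : ∀ a, ((X a : ℝ) : AddCircle (4 : ℝ)) = (Y a : ℝ)) (a₀ : A) (h0 : X a₀ = Y a₀) (a : A) :
    X a = Y a := by
  have := Ess_cov.eq_of_comp_eq (g₁ := X) (g₂ := Y) hX hY (by funext a; exact h a) a₀ h0
  exact congrFun this a

/-- The lift of a homotopy of closed curves. -/
theorem Ess_lift (h : I × ℝ → AddCircle (4 : ℝ)) (hc : Continuous h) (f : ℝ → ℝ)
    (hf : Continuous f) (h0 : ∀ t, h (0, t) = (f t : AddCircle (4 : ℝ)))
    (hp : ∀ s t, h (s, t + 1) = h (s, t)) (hfp : ∀ t, f (t + 1) = f t) :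
    ∃ X : I × ℝ → ℝ, Continuous X ∧ (∀ p, ((X p : ℝ) : AddCircle (4 : ℝ)) = h p) ∧
      (∀ t, X (0, t) = f t) ∧ ∀ s t, X (s, t + 1) = X (s, t) := by
  let H : C(I × ℝ, AddCircle (4 : ℝ)) := ⟨h, hc⟩
  let F : C(ℝ, ℝ) := ⟨f, hf⟩
  have H0 : ∀ a : ℝ, H (0, a) = (F a : AddCircle (4 : ℝ)) := h0
  let G := Ess_cov.liftHomotopy H F H0
  have hG1 : ∀ p, ((G p : ℝ) : AddCircle (4 : ℝ)) = h p := fun p =>
    congrFun (Ess_cov.liftHomotopy_lifts H F H0) p
  have hG2 : ∀ t, G (0, t) = f t := Ess_cov.liftHomotopy_zero H F H0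
  refine ⟨G, G.continuous, hG1, hG2, fun s t => ?_⟩
  exact Ess_unique (A := I × ℝ) (X := fun p => G (p.1, p.2 + 1)) (Y := fun p => G (p.1, p.2))
    (by fun_prop) (by fun_prop) (fun p => by rw [hG1, hG1, hp]) (0, 0)
    (by simp only [hG2]; exact hfp 0) (s, t)

/-- (ESS) the neck is essential. -/
theorem ess : S_ESS := by
  intro l hl x ⟨H⟩
  have hH0 : ∀ t : ℝ, (H (0, (t : S1))).val =
      (((Real.cos (2 * Real.pi * t) : ℝ) : AddCircle (4 : ℝ)),
        ((Real.sin (2 * Real.pi * t) : ℝ) : AddCircle (4 : ℝ)), (0 : ℝ)) := by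
    intro t
    rw [H.apply_zero]
    exact hl t
  have hH1 : ∀ t : ℝ, H (1, (t : S1)) = x := fun t => H.apply_one _
  have hc : Continuous fun p : I × ℝ => (H (p.1, (p.2 : S1))).val := by
    refine continuous_subtype_val.comp (H.continuous.comp ?_)
    exact continuous_fst.prodMk ((AddCircle.continuous_mk' (1 : ℝ)).comp continuous_snd)
  have hper : ∀ (s : I) (t : ℝ), H (s, ((t + 1 : ℝ) : S1)) = H (s, (t : S1)) := by
    intro s t
    rw [AddCircle.coe_add_period]
  have hcos : ∀ t : ℝ, Real.cos (2 * Real.pi * (t + 1)) = Real.cos (2 * Real.pi * t) := by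
    intro t
    rw [mul_add, mul_one, Real.cos_add_two_pi]
  have hsin : ∀ t : ℝ, Real.sin (2 * Real.pi * (t + 1)) = Real.sin (2 * Real.pi * t) := by
    intro t
    rw [mul_add, mul_one, Real.sin_add_two_pi]
  obtain ⟨X, hXc, hX, hX0, hXp⟩ := Ess_lift (fun p => (H (p.1, (p.2 : S1))).val.1)
    (continuous_fst.comp hc) (fun t => Real.cos (2 * Real.pi * t)) (by fun_prop)
    (fun t => by rw [hH0]) (fun s t => by simp only [hper]) hcos
  obtain ⟨Y, hYc, hY, hY0, hYp⟩ := Ess_lift (fun p => (H (p.1, (p.2 : S1))).val.2.1)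
    (continuous_fst.comp (continuous_snd.comp hc)) (fun t => Real.sin (2 * Real.pi * t))
    (by fun_prop) (fun t => by rw [hH0]) (fun s t => by simp only [hper]) hsin
  let K : I × ℝ → ℂ := fun p => (X p : ℂ) + (Y p : ℂ) * Complex.I
  have hKc : Continuous K := by
    exact (Complex.continuous_ofReal.comp hXc).add
      ((Complex.continuous_ofReal.comp hYc).mul continuous_const)
  have hK0 : ∀ p, K p ≠ 0 := by
    intro p hp
    have h1 : X p = 0 := by
      have := congrArg Complex.re hp
      simpa [K] using this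
    have h2 : Y p = 0 := by
      have := congrArg Complex.im hp
      simpa [K] using this
    have h3 := (H (p.1, (p.2 : S1))).2
    have h4 := hX p
    have h5 := hY p
    rw [h1] at h4
    rw [h2] at h5
    rw [← h4, ← h5] at h3
    simp only [AddCircle.coe_zero, norm_zero] at h3
    nlinarith [sq_nonneg (H (p.1, (p.2 : S1))).val.2.2]
  have hKp : ∀ s t, K (s, t + 1) = K (s, t) := by
    intro s t
    simp only [K, hXp, hYp]
  have hstart : HasWinding (fun t => K (0, t)) 1 := by
    have h1 := hasWinding_circ one_pos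
    have h2 : (fun t => K (0, t)) = circ 1 := by
      funext t
      simp only [K, hX0, hY0]
      unfold circ
      have h3 : (2 * Real.pi * (t : ℂ) * Complex.I) = ((2 * Real.pi * t : ℝ) : ℂ) * Complex.I := by
        push_cast; ring
      rw [h3, Complex.exp_mul_I, ← Complex.ofReal_cos, ← Complex.ofReal_sin]
      push_cast
      ring
    rw [h2]
    exact h1
  have hend := hstart.homotopy hKc hK0 hKp 1
  have hconst : ∀ t : ℝ, K (1, t) = K (1, 0) := by
    intro t
    have h1 : X (1, t) = X (1, 0) := by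
      apply Ess_unique (A := ℝ) (X := fun t => X (1, t)) (Y := fun _ => X (1, 0)) (by fun_prop)
        continuous_const _ 0 rfl
      intro a
      rw [hX, hX]
      simp only [hH1]
    have h2 : Y (1, t) = Y (1, 0) := by
      apply Ess_unique (A := ℝ) (X := fun t => Y (1, t)) (Y := fun _ => Y (1, 0)) (by fun_prop)
        continuous_const _ 0 rfl
      intro a
      rw [hY, hY]
      simp only [hH1]
    simp only [K, h1, h2]
  have hzero : HasWinding (fun t => K (1, t)) 0 :=
    ⟨fun _ => Complex.log (K (1, 0)), continuous_const,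
      fun t => by rw [Complex.exp_log (hK0 _)]; exact (hconst t).symm, fun _ => by simp⟩
  exact one_ne_zero (hend.unique hzero)

end Pool.Agent.N241.MS
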