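import Pool.Agent.N241.MS.Stm

/-!
# (NCK) the neck of the surface is a simple closed curve
-/

set_option autoImplicit false

open Topology Set

namespace Pool.Agent.N241.MS

/-- the height -/
noncomputable def hu (s : ℝ) : ℝ := s / (1 + |s|)

lemma hu_cont : Continuous hu := by
  unfold hu
  refine continuous_id.div (by fun_prop) fun s => ?_
  positivity

lemma hu_zero : hu 0 = 0 := by simp [hu]

lemma abs_hu (s : ℝ) : |hu s| = |s| / (1 + |s|) := by
  unfold hu
  rw [abs_div, abs_of_pos (show (0:ℝ) < 1 + |s| by positivity)]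

lemma abs_hu_lt (s : ℝ) : |hu s| < 1 := by
  rw [abs_hu, div_lt_one (by positivity)]
  linarith

lemma hu_inv (s : ℝ) : hu s / (1 - |hu s|) = s := by
  rw [abs_hu]
  unfold hu
  have h : (1 + |s|) ≠ 0 := by positivity
  field_simp
  ring_nf

lemma hu_inj : Function.Injective hu := by
  intro s s' h
  rw [← hu_inv s, h, hu_inv]

lemma hu_surj {u : ℝ} (h : |u| < 1) : hu (u / (1 - |u|)) = u := by
  have h1 : 0 < 1 - |u| := by linarith
  unfold hu
  rw [abs_div, abs_of_pos h1]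
  field_simp
  ring

lemma abs_le_of_hu {s m : ℝ} (hm : m < 1) (h : |hu s| ≤ m) : |s| ≤ m / (1 - m) := by
  rw [abs_hu, div_le_iff₀ (by positivity)] at h
  rw [le_div_iff₀ (by linarith)]
  linarith

/-- the radius -/
noncomputable def hr (s : ℝ) : ℝ := Real.sqrt (1 + hu s ^ 2)

lemma hr_cont : Continuous hr := by
  unfold hr
  exact (continuous_const.add (hu_cont.pow 2)).sqrt

lemma hr_sq (s : ℝ) : hr s ^ 2 = 1 + hu s ^ 2 := Real.sq_sqrt (by positivity)

lemma hr_pos (s : ℝ) : 0 < hr s := Real.sqrt_pos.2 (by positivity)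

lemma hr_lt (s : ℝ) : hr s < 2 := by
  have h1 := hr_sq s
  have h2 : hu s ^ 2 < 1 := by
    rw [sq_lt_one_iff_abs_lt_one]
    exact abs_hu_lt s
  have h3 := hr_pos s
  nlinarith

lemma circle_sq (z : Circle) : (z : ℂ).re ^ 2 + (z : ℂ).im ^ 2 = 1 := by
  have h := Circle.normSq_coe z
  rw [Complex.normSq_apply] at h
  linarith

lemma abs_re_le (z : Circle) : |(z : ℂ).re| ≤ 1 := by
  rw [← sq_le_one_iff_abs_le_one]
  nlinarith [circle_sq z, sq_nonneg (z : ℂ).im]

lemma abs_im_le (z : Circle) : |(z : ℂ).im| ≤ 1 := by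
  rw [← sq_le_one_iff_abs_le_one]
  nlinarith [circle_sq z, sq_nonneg (z : ℂ).re]

lemma norm_four {a : ℝ} (h : |a| ≤ 2) : ‖(a : AddCircle (4 : ℝ))‖ = |a| := by
  rw [AddCircle.norm_coe_eq_abs_iff 4 (by norm_num)]
  rw [abs_of_pos (by norm_num : (0:ℝ) < 4)]
  linarith

lemma coe_four_inj {a b : ℝ} (ha : |a| < 2) (hb : |b| < 2)
    (h : (a : AddCircle (4 : ℝ)) = b) : a = b := by
  have h1 : ((a - b : ℝ) : AddCircle (4 : ℝ)) = 0 := by
    rw [AddCircle.coe_sub, h, sub_self]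
  rw [AddCircle.coe_eq_zero_iff] at h1
  obtain ⟨n, hn⟩ := h1
  rw [zsmul_eq_mul] at hn
  rw [abs_lt] at ha hb
  have h2 : (n : ℝ) < 1 := by linarith
  have h3 : (-1 : ℝ) < n := by linarith
  have h4 : n < 1 := by exact_mod_cast h2
  have h5 : -1 < n := by exact_mod_cast h3
  have h6 : n = 0 := by omega
  rw [h6] at hn
  simp at hn
  linarith

lemma rep_four (x : AddCircle (4 : ℝ)) : ∃ a : ℝ, (a : AddCircle (4 : ℝ)) = x ∧ |a| = ‖x‖ := by
  induction x using QuotientAddGroup.induction_on with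
  | H x =>
    refine ⟨x - round ((4:ℝ)⁻¹ * x) * 4, ?_, (AddCircle.norm_eq 4).symm⟩
    rw [AddCircle.coe_sub]
    have : ((round ((4:ℝ)⁻¹ * x) * 4 : ℝ) : AddCircle (4:ℝ)) = 0 := by
      rw [AddCircle.coe_eq_zero_iff]
      exact ⟨round ((4:ℝ)⁻¹ * x), by rw [zsmul_eq_mul]⟩
    rw [this, sub_zero]

/-- the annulus -/
noncomputable def nk (p : S1 × ℝ) : Surf :=
  ⟨(((hr p.2 * ((AddCircle.toCircle p.1 : Circle) : ℂ).re : ℝ) : AddCircle (4 : ℝ)),
    ((hr p.2 * ((AddCircle.toCircle p.1 : Circle) : ℂ).im : ℝ) : AddCircle (4 : ℝ)), hu p.2), by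
    have h0 := hr_lt p.2
    have h0' := hr_pos p.2
    have h1 : |hr p.2 * ((AddCircle.toCircle p.1 : Circle) : ℂ).re| ≤ 2 := by
      rw [abs_mul, abs_of_pos h0']
      nlinarith [abs_re_le (AddCircle.toCircle p.1), abs_nonneg ((AddCircle.toCircle p.1 : Circle) : ℂ).re]
    have h2 : |hr p.2 * ((AddCircle.toCircle p.1 : Circle) : ℂ).im| ≤ 2 := by
      rw [abs_mul, abs_of_pos h0']
      nlinarith [abs_im_le (AddCircle.toCircle p.1), abs_nonneg ((AddCircle.toCircle p.1 : Circle) : ℂ).im]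
    simp only
    rw [norm_four h1, norm_four h2, sq_abs, sq_abs, ← hr_sq]
    linear_combination hr p.2 ^ 2 * circle_sq (AddCircle.toCircle p.1)⟩

lemma nk_cont : Continuous nk := by
  have hz : Continuous fun p : S1 × ℝ => ((AddCircle.toCircle p.1 : Circle) : ℂ) :=
    continuous_subtype_val.comp (AddCircle.continuous_toCircle.comp continuous_fst)
  have hrr : Continuous fun p : S1 × ℝ => hr p.2 := hr_cont.comp continuous_snd
  refine Continuous.subtype_mk ?_ _
  refine Continuous.prodMk ?_ (Continuous.prodMk ?_ (hu_cont.comp continuous_snd))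
  · exact (AddCircle.continuous_mk' 4).comp (hrr.mul (Complex.continuous_re.comp hz))
  · exact (AddCircle.continuous_mk' 4).comp (hrr.mul (Complex.continuous_im.comp hz))

lemma nk_inj : Function.Injective nk := by
  intro p p' h
  have h1 := congrArg Subtype.val h
  unfold nk at h1
  simp only [Prod.mk.injEq] at h1
  obtain ⟨hx, hy, hu'⟩ := h1
  have hs : p.2 = p'.2 := hu_inj hu'
  have h0 := hr_lt p'.2
  have h0' := hr_pos p'.2
  have key1 : ∀ z : Circle, |hr p'.2 * (z : ℂ).re| < 2 := by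
    intro z
    rw [abs_mul, abs_of_pos h0']
    nlinarith [abs_re_le z, abs_nonneg (z : ℂ).re]
  have key2 : ∀ z : Circle, |hr p'.2 * (z : ℂ).im| < 2 := by
    intro z
    rw [abs_mul, abs_of_pos h0']
    nlinarith [abs_im_le z, abs_nonneg (z : ℂ).im]
  rw [hs] at hx hy
  have h3 := coe_four_inj (key1 _) (key1 _) hx
  have h4 := coe_four_inj (key2 _) (key2 _) hy
  have h5 := mul_left_cancel₀ h0'.ne' h3
  have h6 := mul_left_cancel₀ h0'.ne' h4
  have h7 : AddCircle.toCircle p.1 = AddCircle.toCircle p'.1 := by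
    apply Circle.ext
    exact Complex.ext h5 h6
  have h8 := AddCircle.injective_toCircle (one_ne_zero) h7
  exact Prod.ext h8 hs

lemma nk_surj {q : Surf} (h : |q.val.2.2| < 1) : ∃ p, nk p = q := by
  obtain ⟨⟨x, y, u⟩, hq⟩ := q
  simp only at h hq
  obtain ⟨a, ha, ha'⟩ := rep_four x
  obtain ⟨b, hb, hb'⟩ := rep_four y
  set s := u / (1 - |u|) with hs
  have hus : hu s = u := hu_surj h
  have hr2 : hr s ^ 2 = a ^ 2 + b ^ 2 := by
    rw [hr_sq, hus, ← sq_abs a, ← sq_abs b, ha', hb', hq]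
  have hr0 := hr_pos s
  set z : ℂ := ⟨a / hr s, b / hr s⟩ with hz
  have hz1 : z ∈ Submonoid.unitSphere ℂ := by
    have h2 : ‖z‖ ^ 2 = 1 := by
      rw [← Complex.normSq_eq_norm_sq, Complex.normSq_apply, hz]
      simp only
      have h3 : hr s ≠ 0 := hr0.ne'
      field_simp
      linarith
    have h3 : ‖z‖ = 1 := by
      rw [← Real.sqrt_sq (norm_nonneg z), h2, Real.sqrt_one]
    exact mem_sphere_zero_iff_norm.2 h3
  obtain ⟨t, ht⟩ := (AddCircle.homeomorphCircle (one_ne_zero : (1:ℝ) ≠ 0)).surjective ⟨z, hz1⟩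
  refine ⟨(t, s), ?_⟩
  apply Subtype.ext
  unfold nk
  simp only
  rw [AddCircle.homeomorphCircle_apply] at ht
  have ht' : ((AddCircle.toCircle t : Circle) : ℂ) = z := by rw [ht]
  rw [ht', hus]
  simp only [hz]
  rw [mul_div_cancel₀ _ hr0.ne', mul_div_cancel₀ _ hr0.ne', ha, hb]

lemma nk_open : IsOpenMap nk := by
  intro U hU
  refine isOpen_iff_forall_mem_open.2 ?_
  rintro _ ⟨p, hp, rfl⟩
  obtain ⟨m, hm1, hm2⟩ := exists_between (abs_hu_lt p.2)
  set C : Set (S1 × ℝ) := univ ×ˢ Icc (-(m / (1 - m))) (m / (1 - m)) with hC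
  have hCc : IsCompact C := isCompact_univ.prod isCompact_Icc
  have hmem : ∀ p' : S1 × ℝ, |hu p'.2| ≤ m → p' ∈ C := by
    intro p' h
    exact ⟨mem_univ _, abs_le.1 (abs_le_of_hu hm2 h)⟩
  have hcl : IsClosed (nk '' (C \ U)) := ((hCc.diff hU).image nk_cont).isClosed
  have hW : IsOpen {q : Surf | |q.val.2.2| < m} :=
    isOpen_lt (by fun_prop) continuous_const
  refine ⟨{q : Surf | |q.val.2.2| < m} ∩ (nk '' (C \ U))ᶜ, ?_, hW.inter hcl.isOpen_compl, ?_, ?_⟩
  · rintro q ⟨hq1, hq2⟩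
    obtain ⟨p', rfl⟩ := nk_surj (lt_trans hq1 hm2)
    by_contra hcon
    apply hq2
    refine ⟨p', ⟨hmem p' (le_of_lt hq1), fun h => hcon ⟨p', h, rfl⟩⟩, rfl⟩
  · exact hm1
  · rintro ⟨p', hp', he⟩
    rw [nk_inj he] at hp'
    exact hp'.2 hp

theorem nck : S_NCK := by
  refine ⟨⟨⟨fun t => nk (t, 0), nk_cont.comp (by fun_prop)⟩, nk,
    IsOpenEmbedding.of_continuous_injective_isOpenMap nk_cont nk_inj nk_open, fun t => rfl⟩, ?_⟩
  intro t
  simp only [ContinuousMap.coe_mk, nk]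
  have h1 : hr 0 = 1 := by simp [hr, hu_zero]
  rw [AddCircle.toCircle_apply_mk, hu_zero, h1, Circle.coe_exp]
  rw [Complex.exp_ofReal_mul_I_re, Complex.exp_ofReal_mul_I_im]
  simp

end Pool.Agent.N241.MS
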