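import Pool.Agent.N241.MS.Stm2
import Pool.Agent.N241.MS.Nck

/-!
# (MAN) `Surf` is a compact connected surface
-/

set_option autoImplicit false

open Topology Set

namespace Pool.Agent.N241.MS

namespace Man_

/-! ### Compactness -/

lemma norm_le_two (x : AddCircle (4 : ℝ)) : ‖x‖ ≤ 2 := by
  have h := AddCircle.norm_le_half_period (p := (4 : ℝ)) (x := x) (by norm_num)
  rw [abs_of_pos (by norm_num : (0:ℝ) < 4)] at h
  linarith

theorem compact : CompactSpace Surf := by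
  haveI : Fact ((0 : ℝ) < 4) := ⟨by norm_num⟩
  refine isCompact_iff_compactSpace.1 ?_
  refine IsCompact.of_isClosed_subset (s := univ ×ˢ (univ ×ˢ Icc (-3 : ℝ) 3))
    (isCompact_univ.prod (isCompact_univ.prod isCompact_Icc)) ?_ ?_
  · exact isClosed_eq (by fun_prop) (by fun_prop)
  · rintro ⟨x, y, u⟩ hq
    refine ⟨mem_univ _, mem_univ _, ?_⟩
    have h : ‖x‖ ^ 2 + ‖y‖ ^ 2 = 1 + u ^ 2 := hq
    have h1 := norm_le_two x
    have h2 := norm_le_two y
    have h3 := norm_nonneg x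
    have h4 := norm_nonneg y
    refine abs_le.1 ?_
    refine abs_le_of_sq_le_sq ?_ (by norm_num)
    nlinarith

/-! ### Connectedness -/

/-- the largest coordinate -/
noncomputable def mm (θ : ℝ) : ℝ := max |Real.cos θ| |Real.sin θ|

lemma mm_pos (θ : ℝ) : 0 < mm θ := by
  by_contra hcon
  have h1 : |Real.cos θ| ≤ 0 := (le_max_left _ _).trans (not_lt.1 hcon)
  have h2 : |Real.sin θ| ≤ 0 := (le_max_right _ _).trans (not_lt.1 hcon)
  have h3 := abs_eq_zero.1 (le_antisymm h1 (abs_nonneg _))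
  have h4 := abs_eq_zero.1 (le_antisymm h2 (abs_nonneg _))
  have h5 := Real.sin_sq_add_cos_sq θ
  rw [h3, h4] at h5
  norm_num at h5

lemma mm_le (θ : ℝ) : mm θ ≤ 1 := max_le (Real.abs_cos_le_one θ) (Real.abs_sin_le_one θ)

lemma mm_cont : Continuous mm := by
  unfold mm
  fun_prop

/-- the largest height -/
noncomputable def uu (θ : ℝ) : ℝ := Real.sqrt (4 / mm θ ^ 2 - 1)

lemma uu_cont : Continuous uu := by
  unfold uu
  refine Continuous.sqrt ((continuous_const.div (mm_cont.pow 2) fun θ => ?_).sub continuous_const)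
  exact pow_ne_zero _ (mm_pos θ).ne'

lemma uu_sq (θ : ℝ) : uu θ ^ 2 = 4 / mm θ ^ 2 - 1 := by
  refine Real.sq_sqrt ?_
  have h1 := mm_pos θ
  have h2 := mm_le θ
  rw [sub_nonneg, le_div_iff₀ (by positivity)]
  nlinarith

/-- the clamped height -/
noncomputable def cu (p : ℝ × ℝ) : ℝ := max (-uu p.1) (min (uu p.1) p.2)

lemma cu_cont : Continuous cu := by
  have := uu_cont
  unfold cu
  fun_prop

lemma uu_nonneg (θ : ℝ) : 0 ≤ uu θ := Real.sqrt_nonneg _

lemma cu_abs (p : ℝ × ℝ) : |cu p| ≤ uu p.1 := by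
  have := uu_nonneg p.1
  unfold cu
  rw [abs_le]
  exact ⟨le_max_left _ _, max_le (by linarith) (min_le_left _ _)⟩

lemma cu_eq {p : ℝ × ℝ} (h : |p.2| ≤ uu p.1) : cu p = p.2 := by
  obtain ⟨h1, h2⟩ := abs_le.1 h
  unfold cu
  rw [min_eq_right h2, max_eq_right h1]

/-- the radius -/
noncomputable def rr (p : ℝ × ℝ) : ℝ := Real.sqrt (1 + cu p ^ 2)

lemma rr_cont : Continuous rr := by
  have := cu_cont
  unfold rr
  fun_prop

lemma rr_sq (p : ℝ × ℝ) : rr p ^ 2 = 1 + cu p ^ 2 := Real.sq_sqrt (by positivity)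

lemma rr_pos (p : ℝ × ℝ) : 0 < rr p := Real.sqrt_pos.2 (by positivity)

lemma rr_mm (p : ℝ × ℝ) : rr p * mm p.1 ≤ 2 := by
  refine abs_le_of_sq_le_sq' (a := rr p * mm p.1) (b := 2) ?_ (by norm_num) |>.2
  have h1 := cu_abs p
  have h2 : cu p ^ 2 ≤ uu p.1 ^ 2 := by
    rw [← sq_abs (cu p)]
    exact pow_le_pow_left₀ (abs_nonneg _) h1 2
  have h3 := mm_pos p.1
  rw [mul_pow, rr_sq]
  rw [uu_sq] at h2
  have h4 : 1 + cu p ^ 2 ≤ 4 / mm p.1 ^ 2 := by linarith
  rw [le_div_iff₀ (by positivity)] at h4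
  linarith

/-- the parametrization -/
noncomputable def par (p : ℝ × ℝ) : Surf :=
  ⟨(((rr p * Real.cos p.1 : ℝ) : AddCircle (4 : ℝ)), ((rr p * Real.sin p.1 : ℝ) : AddCircle (4 : ℝ)),
    cu p), by
    have h0 := rr_mm p
    have h0' := rr_pos p
    have h1 : |rr p * Real.cos p.1| ≤ 2 := by
      rw [abs_mul, abs_of_pos h0']
      exact (mul_le_mul_of_nonneg_left (le_max_left _ _) h0'.le).trans h0
    have h2 : |rr p * Real.sin p.1| ≤ 2 := by
      rw [abs_mul, abs_of_pos h0']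
      exact (mul_le_mul_of_nonneg_left (le_max_right _ _) h0'.le).trans h0
    simp only
    rw [norm_four h1, norm_four h2, sq_abs, sq_abs, ← rr_sq]
    linear_combination rr p ^ 2 * Real.sin_sq_add_cos_sq p.1⟩

lemma par_cont : Continuous par := by
  have h1 := rr_cont
  refine Continuous.subtype_mk ?_ _
  refine Continuous.prodMk ?_ (Continuous.prodMk ?_ cu_cont)
  · exact (AddCircle.continuous_mk' 4).comp (by fun_prop)
  · exact (AddCircle.continuous_mk' 4).comp (by fun_prop)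

lemma par_surj : Function.Surjective par := by
  rintro ⟨⟨x, y, u⟩, hq⟩
  simp only at hq
  obtain ⟨a, ha, ha'⟩ := rep_four x
  obtain ⟨b, hb, hb'⟩ := rep_four y
  have ha2 : |a| ≤ 2 := ha' ▸ norm_le_two x
  have hb2 : |b| ≤ 2 := hb' ▸ norm_le_two y
  have hab : a ^ 2 + b ^ 2 = 1 + u ^ 2 := by
    rw [← sq_abs a, ← sq_abs b, ha', hb', hq]
  set z : ℂ := ⟨a, b⟩ with hz
  have hr : ‖z‖ = Real.sqrt (1 + u ^ 2) := by
    rw [← hab, Complex.norm_def, Complex.normSq_apply]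
    congr 1
    ring
  have hrpos : 0 < Real.sqrt (1 + u ^ 2) := Real.sqrt_pos.2 (by positivity)
  have hz0 : z ≠ 0 := norm_pos_iff.1 (hr ▸ hrpos)
  have hc : Real.sqrt (1 + u ^ 2) * Real.cos z.arg = a := by
    rw [← hr]
    exact Complex.norm_mul_cos_arg z
  have hs : Real.sqrt (1 + u ^ 2) * Real.sin z.arg = b := by
    rw [← hr]
    exact Complex.norm_mul_sin_arg z
  have hm : Real.sqrt (1 + u ^ 2) * mm z.arg ≤ 2 := by
    unfold mm
    rw [mul_max_of_nonneg _ _ hrpos.le]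
    refine max_le ?_ ?_
    · rw [← abs_of_pos hrpos, ← abs_mul, hc]
      exact ha2
    · rw [← abs_of_pos hrpos, ← abs_mul, hs]
      exact hb2
  have hu : |((z.arg, u) : ℝ × ℝ).2| ≤ uu ((z.arg, u) : ℝ × ℝ).1 := by
    refine abs_le_of_sq_le_sq ?_ (uu_nonneg _)
    rw [uu_sq]
    have h3 := mm_pos z.arg
    have h4 : 1 + u ^ 2 ≤ 4 / mm z.arg ^ 2 := by
      rw [le_div_iff₀ (by positivity)]
      have h5 : (Real.sqrt (1 + u ^ 2) * mm z.arg) ^ 2 ≤ 2 ^ 2 :=
        pow_le_pow_left₀ (by positivity) hm 2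
      rw [mul_pow, Real.sq_sqrt (by positivity)] at h5
      linarith
    simp only
    linarith
  refine ⟨(z.arg, u), ?_⟩
  apply Subtype.ext
  have hcu := cu_eq hu
  simp only at hcu
  have hrr : rr (z.arg, u) = Real.sqrt (1 + u ^ 2) := by
    unfold rr
    rw [hcu]
  unfold par
  simp only
  rw [hrr, hcu, hc, hs, ha, hb]

theorem connected : ConnectedSpace Surf := par_surj.connectedSpace par_cont

/-! ### Charts -/

/-- small open embeddings of the plane -/
def Pl (X : Type) [TopologicalSpace X] (x : X) : Prop :=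
  ∀ W : Set X, IsOpen W → x ∈ W → ∃ f : ℂ → X, IsOpenEmbedding f ∧ x ∈ range f ∧ range f ⊆ W

lemma pl_of {X : Type} [TopologicalSpace X] (f : ℂ → X) (hf : IsOpenEmbedding f) (z : ℂ) :
    Pl X (f z) := by
  intro W hW hx
  have h1 : IsOpen (f ⁻¹' W) := hW.preimage hf.continuous
  obtain ⟨ε, hε, hb⟩ := Metric.isOpen_iff.1 h1 z hx
  have he : IsOpenEmbedding (OpenPartialHomeomorph.univBall (E := ℂ) z ε) :=
    OpenPartialHomeomorph.isOpenEmbedding _ (OpenPartialHomeomorph.univBall_source z ε)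
  refine ⟨f ∘ OpenPartialHomeomorph.univBall (E := ℂ) z ε, hf.comp he, ⟨0, ?_⟩, ?_⟩
  · simp
  · rintro _ ⟨w, rfl⟩
    apply hb
    rw [← OpenPartialHomeomorph.univBall_target z hε]
    exact (OpenPartialHomeomorph.univBall (E := ℂ) z ε).map_source (by simp)

lemma arc (p : ℝ) (hp : 0 < p) (x : AddCircle p) :
    ∃ f : ℝ → AddCircle p, IsOpenEmbedding f ∧ f 0 = x := by
  obtain ⟨t, rfl⟩ := QuotientAddGroup.mk_surjective x
  have hp2 : 0 < p / 2 := by positivity
  have he : IsOpenEmbedding (OpenPartialHomeomorph.univBall (E := ℝ) t (p / 2)) :=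
    OpenPartialHomeomorph.isOpenEmbedding _ (OpenPartialHomeomorph.univBall_source t (p / 2))
  refine ⟨fun s => ((OpenPartialHomeomorph.univBall (E := ℝ) t (p / 2) s : ℝ) : AddCircle p),
    IsOpenEmbedding.of_continuous_injective_isOpenMap ?_ ?_ ?_, ?_⟩
  · exact (AddCircle.continuous_mk' p).comp he.continuous
  · intro s s' h
    apply he.injective
    have hm : ∀ s : ℝ, |OpenPartialHomeomorph.univBall (E := ℝ) t (p / 2) s - t| < p / 2 := by
      intro s
      have : OpenPartialHomeomorph.univBall (E := ℝ) t (p / 2) s ∈ Metric.ball t (p / 2) := by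
        rw [← OpenPartialHomeomorph.univBall_target t hp2]
        exact (OpenPartialHomeomorph.univBall (E := ℝ) t (p / 2)).map_source (by simp)
      rwa [Metric.mem_ball, Real.dist_eq] at this
    have h1 : ((OpenPartialHomeomorph.univBall (E := ℝ) t (p / 2) s -
        OpenPartialHomeomorph.univBall (E := ℝ) t (p / 2) s' : ℝ) : AddCircle p) = 0 := by
      rw [AddCircle.coe_sub]
      simp only at h
      rw [h, sub_self]
    rw [AddCircle.coe_eq_zero_iff] at h1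
    obtain ⟨n, hn⟩ := h1
    rw [zsmul_eq_mul] at hn
    have h2 := abs_lt.1 (hm s)
    have h3 := abs_lt.1 (hm s')
    have h4 : |(n : ℝ) * p| < 1 * p := by
      rw [hn, abs_lt]
      constructor <;> linarith
    rw [abs_mul, abs_of_pos hp] at h4
    have h5 : |(n : ℝ)| < 1 := lt_of_mul_lt_mul_right h4 hp.le
    have h6 : |n| < 1 := by exact_mod_cast h5
    rw [Int.abs_lt_one_iff.1 h6] at hn
    simp at hn
    linarith
  · exact QuotientAddGroup.isOpenMap_coe.comp he.isOpenMap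
  · simp

lemma pl_prod {X Y : Type} [TopologicalSpace X] [TopologicalSpace Y] {x : X} {y : Y}
    (hx : ∃ f : ℝ → X, IsOpenEmbedding f ∧ f 0 = x) (hy : ∃ f : ℝ → Y, IsOpenEmbedding f ∧ f 0 = y) :
    Pl (X × Y) (x, y) := by
  obtain ⟨f, hf, rfl⟩ := hx
  obtain ⟨g, hg, rfl⟩ := hy
  have h : IsOpenEmbedding (Prod.map f g ∘ Complex.equivRealProdCLM.toHomeomorph) :=
    (hf.prodMap hg).comp (Homeomorph.isOpenEmbedding _)
  have h2 := pl_of _ h 0
  simpa using h2

lemma line (s : ℝ) : ∃ f : ℝ → ℝ, IsOpenEmbedding f ∧ f 0 = s :=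
  ⟨fun t => t + s, (Homeomorph.addRight s).isOpenEmbedding, zero_add s⟩

lemma chart_of {X : Type} [TopologicalSpace X] {f : ℂ → X} (hf : IsOpenEmbedding f) {x : X}
    (hx : x ∈ range f) : ∃ U : Set X, IsOpen U ∧ x ∈ U ∧ Nonempty (U ≃ₜ ℂ) :=
  ⟨range f, hf.isOpen_range, hx, ⟨hf.toIsEmbedding.toHomeomorph.symm⟩⟩

/-- the points near the neck -/
lemma chart_neck (q : Surf) (h : |q.val.2.2| < 1) :
    ∃ U : Set Surf, IsOpen U ∧ q ∈ U ∧ Nonempty (U ≃ₜ ℂ) := by
  obtain ⟨⟨t, s⟩, rfl⟩ := nk_surj h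
  obtain ⟨f, hf, hx, -⟩ := pl_prod (arc 1 one_pos t) (line s) univ isOpen_univ (mem_univ _)
  have h1 : IsOpenEmbedding (nk ∘ f) :=
    (IsOpenEmbedding.of_continuous_injective_isOpenMap nk_cont nk_inj nk_open).comp hf
  refine chart_of h1 ?_
  obtain ⟨z, hz⟩ := hx
  exact ⟨z, congrArg nk hz⟩

/-- the points off the neck -/
lemma chart_sheet (q : Surf) (h : q.val.2.2 ≠ 0) :
    ∃ U : Set Surf, IsOpen U ∧ q ∈ U ∧ Nonempty (U ≃ₜ ℂ) := by
  obtain ⟨σ, hσ, hσu⟩ : ∃ σ : ℝ, σ * σ = 1 ∧ 0 < σ * q.val.2.2 := by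
    rcases lt_or_gt_of_ne h with h | h
    · exact ⟨-1, by norm_num, by linarith⟩
    · exact ⟨1, by norm_num, by linarith⟩
  set W : Set (AddCircle (4 : ℝ) × AddCircle (4 : ℝ)) := {p | 1 < ‖p.1‖ ^ 2 + ‖p.2‖ ^ 2} with hW
  have hWo : IsOpen W := isOpen_lt (by fun_prop) (by fun_prop)
  have hqW : (q.val.1, q.val.2.1) ∈ W := by
    have h1 := q.2
    have h2 : 0 < q.val.2.2 ^ 2 := by positivity
    simp only [hW, mem_ofPred_eq]
    linarith
  obtain ⟨f, hf, hx, hfW⟩ := pl_prod (arc 4 (by norm_num) q.val.1) (arc 4 (by norm_num) q.val.2.1)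
    W hWo hqW
  have hpos : ∀ z, 0 < ‖(f z).1‖ ^ 2 + ‖(f z).2‖ ^ 2 - 1 := by
    intro z
    have h1 : f z ∈ W := hfW ⟨z, rfl⟩
    simp only [hW, mem_ofPred_eq] at h1
    linarith
  have hfc := hf.continuous
  let F : ℂ → Surf := fun z =>
    ⟨((f z).1, (f z).2, σ * Real.sqrt (‖(f z).1‖ ^ 2 + ‖(f z).2‖ ^ 2 - 1)), by
      simp only
      rw [mul_pow, Real.sq_sqrt (hpos z).le]
      linear_combination (-(‖(f z).1‖ ^ 2 + ‖(f z).2‖ ^ 2 - 1)) * hσ⟩
  let π : Surf → AddCircle (4 : ℝ) × AddCircle (4 : ℝ) := fun q => (q.val.1, q.val.2.1)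
  have hπ : Continuous π := by fun_prop
  have hF : Continuous F := by
    refine Continuous.subtype_mk ?_ _
    fun_prop
  have hπF : π ∘ F = f := rfl
  have hemb : IsEmbedding F := IsEmbedding.of_comp hF hπ (hπF ▸ hf.toIsEmbedding)
  have hrange : range F = {q : Surf | 0 < σ * q.val.2.2} ∩ π ⁻¹' range f := by
    ext q'
    constructor
    · rintro ⟨z, rfl⟩
      refine ⟨?_, ⟨z, rfl⟩⟩
      change 0 < σ * (σ * Real.sqrt (‖(f z).1‖ ^ 2 + ‖(f z).2‖ ^ 2 - 1))
      rw [← mul_assoc, hσ, one_mul]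
      exact Real.sqrt_pos.2 (hpos z)
    · rintro ⟨h1, z, hz⟩
      refine ⟨z, ?_⟩
      apply Subtype.ext
      have hz1 : (f z).1 = q'.val.1 := congrArg Prod.fst hz
      have hz2 : (f z).2 = q'.val.2.1 := congrArg Prod.snd hz
      have h3 : Real.sqrt (‖(f z).1‖ ^ 2 + ‖(f z).2‖ ^ 2 - 1) = σ * q'.val.2.2 := by
        rw [hz1, hz2, q'.2, add_sub_cancel_left]
        have h4 : q'.val.2.2 ^ 2 = (σ * q'.val.2.2) ^ 2 := by
          linear_combination (-q'.val.2.2 ^ 2) * hσ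
        rw [h4]
        exact Real.sqrt_sq (le_of_lt h1)
      change ((f z).1, (f z).2, σ * Real.sqrt (‖(f z).1‖ ^ 2 + ‖(f z).2‖ ^ 2 - 1)) = q'.val
      rw [h3, hz1, hz2, ← mul_assoc, hσ, one_mul]
  have hopen : IsOpen (range F) := by
    rw [hrange]
    exact (isOpen_lt (by fun_prop) (by fun_prop)).inter (hf.isOpen_range.preimage hπ)
  refine chart_of (f := F) ⟨hemb, hopen⟩ ?_
  rw [hrange]
  exact ⟨hσu, hx⟩

end Man_

open Man_ in
/-- **(MAN)** `Surf` is a compact connected surface. -/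
theorem man : S_MAN := by
  refine ⟨compact, connected, fun q => ?_⟩
  by_cases h : q.val.2.2 = 0
  · exact chart_neck q (by rw [h, abs_zero]; exact one_pos)
  · exact chart_sheet q h

end Pool.Agent.N241.MS
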