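import Pool.Agent.N241.MS.Stm

/-!
# The neck is null-homologous
-/

set_option autoImplicit false

open Topology unitInterval

namespace Pool.Agent.N241.MS

namespace Nul

open Pool.Agent.H659R3.BigMCG

/-! ### Continuous logarithms -/

theorem exists_winding {γ : ℝ → ℂ} (hc : Continuous γ) (h0 : ∀ t, γ t ≠ 0)
    (hp : ∀ t, γ (t + 1) = γ t) : ∃ n : ℤ, HasWinding γ n := by
  let H : C(I × ℝ, {z : ℂ // z ≠ 0}) := ⟨fun p => ⟨γ (p.1 * p.2), h0 _⟩, by fun_prop⟩
  let f : C(ℝ, ℂ) := ContinuousMap.const _ (Complex.log (γ 0))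
  have H0 : ∀ a : ℝ, H (0, a) = (fun z : ℂ ↦ (⟨_, z.exp_ne_zero⟩ : {z : ℂ // z ≠ 0})) (f a) :=
    fun a => Subtype.ext (by
      change γ (((0 : I) : ℝ) * a) = Complex.exp (Complex.log (γ 0))
      rw [Complex.exp_log (h0 0)]
      simp)
  let G := cov_exp.liftHomotopy H f H0
  have hG1 : ∀ p : I × ℝ, Complex.exp (G p) = γ (p.1 * p.2) := fun p =>
    congrArg Subtype.val (congrFun (cov_exp.liftHomotopy_lifts H f H0) p)
  obtain ⟨L, hL⟩ : ∃ L : ℝ → ℂ, ∀ t, L t = G (1, t) := ⟨_, fun _ => rfl⟩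
  have hLc : Continuous L := by
    have : L = fun t => G (1, t) := funext hL
    rw [this]
    fun_prop
  have hLe : ∀ t, Complex.exp (L t) = γ t := fun t => by
    rw [hL, hG1]
    simp
  have h1 : Complex.exp (L 1 - L 0) = 1 := by
    rw [Complex.exp_sub, hLe, hLe]
    have := hp 0
    rw [zero_add] at this
    rw [this, div_self (h0 0)]
  obtain ⟨n, hn⟩ := Complex.exp_eq_one_iff.1 h1
  refine ⟨n, L, hLc, hLe, fun t => ?_⟩
  have h2 := log_unique (L₁ := fun t => L (t + 1)) (L₂ := fun t => L t + (L 1 - L 0))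
    (by fun_prop) (by fun_prop)
    (fun t => by rw [Complex.exp_add, h1, mul_one, hLe, hLe, hp]) (0 : ℝ)
    (by simp) t
  rw [h2, hn]

theorem sym {L G : ℝ → ℂ} (hL : Continuous L) (hG : ∀ t, Complex.exp (L t) = G t) {ψ : ℝ → ℝ}
    (hψ : Continuous ψ) {a b : ℝ} (hab : a ≤ b) (h : ∀ t, a ≤ t → t ≤ b → G (ψ t) = G t) :
    L (ψ b) - L b = L (ψ a) - L a := by
  have : PreconnectedSpace (Set.Icc a b) := Subtype.preconnectedSpace isPreconnected_Icc
  have h1 := log_unique (A := Set.Icc a b) (L₁ := fun t => L (ψ t))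
    (L₂ := fun t => L t + (L (ψ a) - L a)) (by fun_prop) (by fun_prop)
    (fun t => by
      have h2 := h a le_rfl hab
      rw [← hG, ← hG] at h2
      rw [hG, h _ t.2.1 t.2.2, Complex.exp_add, Complex.exp_sub, h2,
        div_self (Complex.exp_ne_zero _), mul_one, hG])
    ⟨a, le_rfl, hab⟩ (by simp) ⟨b, hab, le_rfl⟩
  simp only at h1
  rw [h1]
  ring

/-! ### The square -/

/-- the largest coordinate -/
noncomputable def m (t : ℝ) : ℝ := max |Real.cos (2 * Real.pi * t)| |Real.sin (2 * Real.pi * t)|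

theorem m_pos (t : ℝ) : 0 < m t := by
  by_contra hcon
  have h1 : |Real.cos (2 * Real.pi * t)| ≤ 0 := (le_max_left _ _).trans (not_lt.1 hcon)
  have h2 : |Real.sin (2 * Real.pi * t)| ≤ 0 := (le_max_right _ _).trans (not_lt.1 hcon)
  have h3 := abs_eq_zero.1 (le_antisymm h1 (abs_nonneg _))
  have h4 := abs_eq_zero.1 (le_antisymm h2 (abs_nonneg _))
  have h5 := Real.sin_sq_add_cos_sq (2 * Real.pi * t)
  rw [h3, h4] at h5
  norm_num at h5

theorem m_le (t : ℝ) : m t ≤ 1 := max_le (Real.abs_cos_le_one _) (Real.abs_sin_le_one _)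

theorem m_cont : Continuous m := by
  unfold m
  fun_prop

/-- the radius -/
noncomputable def rho (s t : ℝ) : ℝ := (1 - s) + s * (2 / m t)

theorem rho_cont : Continuous fun p : I × ℝ => rho p.1 p.2 := by
  unfold rho
  have h1 : Continuous fun p : I × ℝ => 2 / m p.2 :=
    continuous_const.div (m_cont.comp continuous_snd) fun p => (m_pos p.2).ne'
  fun_prop

theorem two_le (t : ℝ) : 2 ≤ 2 / m t := by
  rw [le_div_iff₀ (m_pos t)]
  have := m_le t
  linarith

theorem one_le_rho (s : I) (t : ℝ) : 1 ≤ rho s t := by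
  unfold rho
  have h1 := two_le t
  have h2 := s.2.1
  nlinarith

theorem rho_le (s : I) (t : ℝ) : rho s t ≤ 2 / m t := by
  unfold rho
  have h1 := two_le t
  have h2 := s.2.2
  nlinarith

noncomputable def X (s t : ℝ) : ℝ := rho s t * Real.cos (2 * Real.pi * t)

noncomputable def Y (s t : ℝ) : ℝ := rho s t * Real.sin (2 * Real.pi * t)

theorem X_le (s : I) (t : ℝ) : |X s t| ≤ 2 := by
  unfold X
  rw [abs_mul, abs_of_nonneg (by linarith [one_le_rho s t] : (0 : ℝ) ≤ rho s t)]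
  calc rho s t * |Real.cos (2 * Real.pi * t)| ≤ 2 / m t * m t :=
        mul_le_mul (rho_le s t) (le_max_left _ _) (abs_nonneg _)
          (div_nonneg zero_le_two (m_pos t).le)
    _ = 2 := div_mul_cancel₀ _ (m_pos t).ne'

theorem Y_le (s : I) (t : ℝ) : |Y s t| ≤ 2 := by
  unfold Y
  rw [abs_mul, abs_of_nonneg (by linarith [one_le_rho s t] : (0 : ℝ) ≤ rho s t)]
  calc rho s t * |Real.sin (2 * Real.pi * t)| ≤ 2 / m t * m t :=
        mul_le_mul (rho_le s t) (le_max_right _ _) (abs_nonneg _)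
          (div_nonneg zero_le_two (m_pos t).le)
    _ = 2 := div_mul_cancel₀ _ (m_pos t).ne'

theorem sq_sum (s t : ℝ) : X s t ^ 2 + Y s t ^ 2 = rho s t ^ 2 := by
  unfold X Y
  have := Real.sin_sq_add_cos_sq (2 * Real.pi * t)
  linear_combination rho s t ^ 2 * this

theorem norm_cc {x : ℝ} (hx : |x| ≤ 2) : ‖(x : AddCircle (4 : ℝ))‖ = |x| := by
  rw [AddCircle.norm_coe_eq_abs_iff (4 : ℝ) (by norm_num)]
  rw [abs_of_pos (by norm_num : (0 : ℝ) < 4)]
  linarith

/-- the point of the surface -/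
noncomputable def pt (s : I) (t : ℝ) : Surf :=
  ⟨((X s t : AddCircle (4 : ℝ)), (Y s t : AddCircle (4 : ℝ)), Real.sqrt (rho s t ^ 2 - 1)), by
    change ‖(X s t : AddCircle (4 : ℝ))‖ ^ 2 + ‖(Y s t : AddCircle (4 : ℝ))‖ ^ 2 =
      1 + Real.sqrt (rho s t ^ 2 - 1) ^ 2
    rw [norm_cc (X_le s t), norm_cc (Y_le s t), sq_abs, sq_abs, sq_sum, Real.sq_sqrt]
    · ring
    · have := one_le_rho s t
      nlinarith⟩

theorem coe_cont : Continuous fun x : ℝ => (x : AddCircle (4 : ℝ)) :=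
  AddCircle.continuous_mk' 4

theorem pt_cont : Continuous fun p : I × ℝ => pt p.1 p.2 := by
  have h1 := rho_cont
  have hX : Continuous fun p : I × ℝ => X p.1 p.2 := by
    unfold X
    fun_prop
  have hY : Continuous fun p : I × ℝ => Y p.1 p.2 := by
    unfold Y
    fun_prop
  unfold pt
  refine Continuous.subtype_mk ?_ _
  exact (coe_cont.comp hX).prodMk ((coe_cont.comp hY).prodMk
    (Real.continuous_sqrt.comp ((h1.pow 2).sub continuous_const)))

theorem m_per (t : ℝ) : m (t + 1) = m t := by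
  unfold m
  rw [mul_add, mul_one, Real.cos_add_two_pi, Real.sin_add_two_pi]

theorem pt_per (s : I) (t : ℝ) : pt s (t + 1) = pt s t := by
  have h1 : rho s (t + 1) = rho s t := by unfold rho; rw [m_per]
  refine Subtype.ext ?_
  change ((X s (t + 1) : AddCircle (4 : ℝ)), (Y s (t + 1) : AddCircle (4 : ℝ)),
    Real.sqrt (rho s (t + 1) ^ 2 - 1)) = ((X s t : AddCircle (4 : ℝ)),
    (Y s t : AddCircle (4 : ℝ)), Real.sqrt (rho s t ^ 2 - 1))
  unfold X Y
  rw [h1, mul_add, mul_one, Real.cos_add_two_pi, Real.sin_add_two_pi]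

theorem m_neg (t : ℝ) : m (-t) = m t := by
  unfold m
  rw [mul_neg, Real.cos_neg, Real.sin_neg, abs_neg]

theorem half (t : ℝ) : 2 * Real.pi * (1 / 2 - t) = Real.pi - 2 * Real.pi * t := by ring

theorem m_half (t : ℝ) : m (1 / 2 - t) = m t := by
  unfold m
  rw [half, Real.cos_pi_sub, Real.sin_pi_sub, abs_neg]

theorem neg_coe {x : ℝ} (hx : |x| = 2) : ((-x : ℝ) : AddCircle (4 : ℝ)) = (x : AddCircle (4 : ℝ)) := by
  rw [eq_comm, ← sub_eq_zero, ← AddCircle.coe_sub, AddCircle.coe_eq_zero_iff]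
  rcases (abs_eq (by norm_num : (0 : ℝ) ≤ 2)).1 hx with h | h
  · exact ⟨1, by rw [h]; norm_num⟩
  · exact ⟨-1, by rw [h]; norm_num⟩

theorem pt_neg (t : ℝ) (h : |Real.cos (2 * Real.pi * t)| ≤ |Real.sin (2 * Real.pi * t)|) :
    pt 1 (-t) = pt 1 t := by
  have h1 : rho (1 : I) (-t) = rho (1 : I) t := by unfold rho; rw [m_neg]
  have h2 : |Y (1 : I) t| = 2 := by
    have h3 : m t = |Real.sin (2 * Real.pi * t)| := max_eq_right h
    have h4 : rho (1 : I) t = 2 / m t := by unfold rho; simp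
    unfold Y
    rw [abs_mul, h4, abs_of_nonneg (div_nonneg zero_le_two (m_pos t).le), ← h3,
      div_mul_cancel₀ _ (m_pos t).ne']
  have hX : X (1 : I) (-t) = X (1 : I) t := by
    unfold X
    rw [h1, mul_neg, Real.cos_neg]
  have hY : Y (1 : I) (-t) = -Y (1 : I) t := by
    unfold Y
    rw [h1, mul_neg, Real.sin_neg, mul_neg]
  refine Subtype.ext ?_
  change ((X (1 : I) (-t) : AddCircle (4 : ℝ)), (Y (1 : I) (-t) : AddCircle (4 : ℝ)),
    Real.sqrt (rho (1 : I) (-t) ^ 2 - 1)) = ((X (1 : I) t : AddCircle (4 : ℝ)),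
    (Y (1 : I) t : AddCircle (4 : ℝ)), Real.sqrt (rho (1 : I) t ^ 2 - 1))
  rw [h1, hX, hY, neg_coe h2]

theorem pt_half (t : ℝ) (h : |Real.sin (2 * Real.pi * t)| ≤ |Real.cos (2 * Real.pi * t)|) :
    pt 1 (1 / 2 - t) = pt 1 t := by
  have h1 : rho (1 : I) (1 / 2 - t) = rho (1 : I) t := by unfold rho; rw [m_half]
  have h2 : |X (1 : I) t| = 2 := by
    have h3 : m t = |Real.cos (2 * Real.pi * t)| := max_eq_left h
    have h4 : rho (1 : I) t = 2 / m t := by unfold rho; simp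
    unfold X
    rw [abs_mul, h4, abs_of_nonneg (div_nonneg zero_le_two (m_pos t).le), ← h3,
      div_mul_cancel₀ _ (m_pos t).ne']
  have hX : X (1 : I) (1 / 2 - t) = -X (1 : I) t := by
    unfold X
    rw [h1, half, Real.cos_pi_sub, mul_neg]
  have hY : Y (1 : I) (1 / 2 - t) = Y (1 : I) t := by
    unfold Y
    rw [h1, half, Real.sin_pi_sub]
  refine Subtype.ext ?_
  change ((X (1 : I) (1 / 2 - t) : AddCircle (4 : ℝ)), (Y (1 : I) (1 / 2 - t) : AddCircle (4 : ℝ)),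
    Real.sqrt (rho (1 : I) (1 / 2 - t) ^ 2 - 1)) = ((X (1 : I) t : AddCircle (4 : ℝ)),
    (Y (1 : I) t : AddCircle (4 : ℝ)), Real.sqrt (rho (1 : I) t ^ 2 - 1))
  rw [h1, hX, hY, neg_coe h2]

/-- comparison of sine and cosine -/
theorem cos_le_sin {t : ℝ} (h1 : 1 / 8 ≤ t) (h2 : t ≤ 3 / 8) :
    |Real.cos (2 * Real.pi * t)| ≤ |Real.sin (2 * Real.pi * t)| := by
  rw [← sq_le_sq]
  have h3 : Real.cos (2 * (2 * Real.pi * t)) ≤ 0 := by
    apply Real.cos_nonpos_of_pi_div_two_le_of_le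
    · nlinarith [Real.pi_pos]
    · nlinarith [Real.pi_pos]
  rw [Real.cos_two_mul] at h3
  have h4 := Real.sin_sq_add_cos_sq (2 * Real.pi * t)
  linarith

theorem sin_le_cos {t : ℝ} (h1 : -(1 / 8) ≤ t) (h2 : t ≤ 1 / 8) :
    |Real.sin (2 * Real.pi * t)| ≤ |Real.cos (2 * Real.pi * t)| := by
  rw [← sq_le_sq]
  have h3 : 0 ≤ Real.cos (2 * (2 * Real.pi * t)) := by
    apply Real.cos_nonneg_of_mem_Icc
    constructor
    · nlinarith [Real.pi_pos]
    · nlinarith [Real.pi_pos]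
  rw [Real.cos_two_mul] at h3
  have h4 := Real.sin_sq_add_cos_sq (2 * Real.pi * t)
  linarith

end Nul

open Pool.Agent.H659R3.BigMCG in
open Nul in
/-- The neck is null-homologous. -/
theorem nul : S_NUL := by
  intro l hl φ
  have hφ : Continuous fun p : I × ℝ => ((φ (pt p.1 p.2) : Cx) : ℂ) :=
    continuous_subtype_val.comp (φ.continuous.comp pt_cont)
  have h0 : ∀ t, pt 0 t = l (t : S1) := by
    intro t
    refine Subtype.ext ?_
    rw [hl t]
    have h1 : rho (0 : I) t = 1 := by unfold rho; simp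
    change ((X (0 : I) t : AddCircle (4 : ℝ)), (Y (0 : I) t : AddCircle (4 : ℝ)),
      Real.sqrt (rho (0 : I) t ^ 2 - 1)) = _
    unfold X Y
    rw [h1]
    simp
  have hfun : (fun t : ℝ => (φ (l (t : S1)) : ℂ)) = fun t => ((φ (pt 0 t) : Cx) : ℂ) :=
    funext fun t => by rw [h0]
  rw [hfun]
  obtain ⟨n, hn⟩ := exists_winding (γ := fun t => ((φ (pt 0 t) : Cx) : ℂ))
    (hφ.comp (by fun_prop : Continuous fun t : ℝ => ((0 : I), t))) (fun t => (φ (pt 0 t)).2)
    (fun t => by rw [pt_per])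
  have h1 := HasWinding.homotopy (K := fun p : I × ℝ => ((φ (pt p.1 p.2) : Cx) : ℂ)) hφ
    (fun p => (φ (pt p.1 p.2)).2) (fun s t => by
      change ((φ (pt s (t + 1)) : Cx) : ℂ) = ((φ (pt s t) : Cx) : ℂ)
      rw [pt_per]) hn 1
  obtain ⟨L, hL, hLe, hLp⟩ := h1
  have e1 := sym hL hLe (ψ := fun t => -t) (by fun_prop) (a := 1 / 8) (b := 3 / 8) (by norm_num)
    (fun t ht1 ht2 => by
      change ((φ (pt 1 (-t)) : Cx) : ℂ) = ((φ (pt 1 t) : Cx) : ℂ)
      rw [pt_neg t (cos_le_sin ht1 ht2)])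
  have e2 := sym hL hLe (ψ := fun t => 1 / 2 - t) (by fun_prop) (a := -(1 / 8)) (b := 1 / 8)
    (by norm_num)
    (fun t ht1 ht2 => by
      change ((φ (pt 1 (1 / 2 - t)) : Cx) : ℂ) = ((φ (pt 1 t) : Cx) : ℂ)
      rw [pt_half t (sin_le_cos ht1 ht2)])
  have e3 := hLp (-(3 / 8))
  have n1 : (1 / 2 : ℝ) - 1 / 8 = 3 / 8 := by norm_num
  have n2 : (1 / 2 : ℝ) - -(1 / 8) = 5 / 8 := by norm_num
  have n3 : (-(3 / 8) : ℝ) + 1 = 5 / 8 := by norm_num
  rw [n1, n2] at e2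
  rw [n3] at e3
  have h2 : (n : ℂ) * (2 * Real.pi * Complex.I) = 0 := by linear_combination -e3 - e1 - e2
  have h3 : (n : ℂ) = 0 := (mul_eq_zero.1 h2).resolve_right Complex.two_pi_I_ne_zero
  have h4 : n = 0 := by exact_mod_cast h3
  rw [h4] at hn
  exact hn

end Pool.Agent.N241.MS
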