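import Mathlib
import Pool.Agent.N241.MS.Stm

/-!
# (WND) a closed curve which crosses the negative half axis once winds once
-/

set_option autoImplicit false

open Topology Filter

namespace Pool.Agent.N241.MS

open Pool.Agent.H659R3.BigMCG (HasWinding cov_exp log_unique)

/-- continuous logarithms on the line -/
theorem exists_log_real (g : ℝ → ℂ) (hg : Continuous g) (h0 : ∀ t, g t ≠ 0) :
    ∃ L : ℝ → ℂ, Continuous L ∧ ∀ t, Complex.exp (L t) = g t := by
  let f : C(ℝ, {z : ℂ // z ≠ 0}) := ⟨fun t => ⟨g t, h0 t⟩, hg.subtype_mk _⟩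
  obtain ⟨F, ⟨-, hF⟩, -⟩ := cov_exp.existsUnique_continuousMap_lifts f 0 (Complex.log (g 0))
    (Subtype.ext (Complex.exp_log (h0 0)))
  exact ⟨F, F.continuous, fun t => congrArg Subtype.val (congrFun hF t)⟩

/-- a periodic nonvanishing function has a winding number -/
theorem exists_winding (g : ℝ → ℂ) (hg : Continuous g) (h0 : ∀ t, g t ≠ 0)
    (hp : ∀ t, g (t + 1) = g t) : ∃ n : ℤ, HasWinding g n := by
  obtain ⟨L, hLc, hL⟩ := exists_log_real g hg h0
  have h1 : Complex.exp (L 1) = Complex.exp (L 0) := by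
    rw [hL, hL]
    have := hp 0
    rwa [zero_add] at this
  obtain ⟨n, hn⟩ := Complex.exp_eq_exp_iff_exists_int.1 h1
  refine ⟨n, L, hLc, hL, fun t => ?_⟩
  exact log_unique (A := ℝ) (L₁ := fun t => L (t + 1))
    (L₂ := fun t => L t + n * (2 * Real.pi * Complex.I)) (by fun_prop) (by fun_prop)
    (fun t => by rw [hL, Complex.exp_add, Complex.exp_int_mul_two_pi_mul_I, mul_one, hL, hp]) 0
    (by rw [zero_add]; exact hn) t

theorem wnd : S_WND := by
  intro g t0 hg hp hslit him hre hright hleft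
  have hper : Function.Periodic g 1 := hp
  have h0 : ∀ t, g t ≠ 0 := by
    intro t
    obtain ⟨y, hy, hty⟩ := hper.exists_mem_Ico one_pos t t0
    rw [hty]
    rcases eq_or_lt_of_le hy.1 with h | h
    · rw [← h]
      intro h1
      rw [h1] at hre
      simp at hre
    · exact Complex.slitPlane_ne_zero (hslit y h hy.2)
  obtain ⟨n, L, hLc, hL, hLp⟩ := exists_winding g hg h0 hp
  -- the logarithm on the open interval
  obtain ⟨K, hK⟩ : ∃ K : ℂ, ∀ t ∈ Set.Ioo t0 (t0 + 1), L t = Complex.log (g t) + K := by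
    have : PreconnectedSpace (Set.Ioo t0 (t0 + 1)) :=
      Subtype.preconnectedSpace isPreconnected_Ioo
    have hmid : t0 + 1 / 2 ∈ Set.Ioo t0 (t0 + 1) := ⟨by linarith, by linarith⟩
    refine ⟨L (t0 + 1 / 2) - Complex.log (g (t0 + 1 / 2)), fun t ht => ?_⟩
    have hK1 : Complex.exp (L (t0 + 1 / 2) - Complex.log (g (t0 + 1 / 2))) = 1 := by
      rw [Complex.exp_sub, hL, Complex.exp_log (h0 _), div_self (h0 _)]
    have hc : Continuous fun a : Set.Ioo t0 (t0 + 1) => Complex.log (g a) := by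
      rw [continuous_iff_continuousAt]
      intro a
      exact (hg.comp continuous_subtype_val).continuousAt.clog (hslit a a.2.1 a.2.2)
    exact log_unique (A := Set.Ioo t0 (t0 + 1)) (L₁ := fun a => L a)
      (L₂ := fun a => Complex.log (g a) + (L (t0 + 1 / 2) - Complex.log (g (t0 + 1 / 2))))
      (hLc.comp continuous_subtype_val) (hc.add continuous_const)
      (fun a => by rw [hL, Complex.exp_add, hK1, mul_one, Complex.exp_log (h0 _)])
      ⟨t0 + 1 / 2, hmid⟩ (by ring) ⟨t, ht⟩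
  -- the limit from the right
  have hR : L t0 = (Real.log ‖g t0‖ : ℂ) - Real.pi * Complex.I + K := by
    have h1 : Tendsto g (𝓝[>] t0) (𝓝[{z : ℂ | z.im < 0}] (g t0)) :=
      tendsto_nhdsWithin_iff.2 ⟨(hg.tendsto t0).mono_left nhdsWithin_le_nhds, hright⟩
    have h2 := ((Complex.tendsto_log_nhdsWithin_im_neg_of_re_neg_of_im_zero hre him).comp
      h1).add_const K
    have h3 : Tendsto L (𝓝[>] t0) (𝓝 (L t0)) :=
      (hLc.tendsto t0).mono_left nhdsWithin_le_nhds
    refine tendsto_nhds_unique h3 (h2.congr' ?_)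
    have h4 : ∀ᶠ t in 𝓝[>] t0, t ∈ Set.Ioo t0 (t0 + 1) :=
      Ioo_mem_nhdsGT (by linarith)
    filter_upwards [h4] with t ht
    exact (hK t ht).symm
  -- the limit from the left
  have hLf : L (t0 + 1) = (Real.log ‖g t0‖ : ℂ) + Real.pi * Complex.I + K := by
    have h1 : Tendsto g (𝓝[<] t0) (𝓝[{z : ℂ | 0 ≤ z.im}] (g t0)) :=
      tendsto_nhdsWithin_iff.2 ⟨(hg.tendsto t0).mono_left nhdsWithin_le_nhds,
        hleft.mono fun t ht => le_of_lt ht⟩
    have h2 := ((Complex.tendsto_log_nhdsWithin_im_nonneg_of_re_neg_of_im_zero hre him).comp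
      h1).add_const K
    have h3 : Tendsto (fun t => L (t + 1)) (𝓝[<] t0) (𝓝 (L (t0 + 1))) :=
      ((hLc.comp (continuous_id.add continuous_const)).tendsto t0).mono_left nhdsWithin_le_nhds
    refine tendsto_nhds_unique h3 (h2.congr' ?_)
    have h4 : ∀ᶠ t in 𝓝[<] t0, t ∈ Set.Ioo (t0 - 1) t0 :=
      Ioo_mem_nhdsLT (by linarith)
    filter_upwards [h4] with t ht
    have h5 := hK (t + 1) ⟨by linarith [ht.1], by linarith [ht.2]⟩
    rw [hp] at h5
    exact h5.symm
  have h1 := hLp t0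
  rw [hR, hLf] at h1
  have h2 : ((n : ℂ) - 1) * (2 * Real.pi * Complex.I) = 0 := by linear_combination -h1
  have h3 : (n : ℂ) - 1 = 0 := (mul_eq_zero.1 h2).resolve_right Complex.two_pi_I_ne_zero
  have h4 : n = 1 := by exact_mod_cast sub_eq_zero.1 h3
  rw [← h4]
  exact ⟨L, hLc, hL, hLp⟩

end Pool.Agent.N241.MS
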