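import Pool.Agent.N241.MS.Nh
import Pool.Agent.N241.MS.Wnd
import Pool.Agent.N241.MS.Clp
import Pool.Agent.N241.MS.Avo
import Pool.Agent.N241.MS.Nck
import Pool.Agent.N241.MS.Ess
import Pool.Agent.N241.MS.Neck0
import Pool.Agent.N241.MS.Man

/-!
# Assembly
-/

set_option autoImplicit false

open Topology

namespace Pool.Agent.N241.MS

theorem avo' : S_AVO := avo clp wnd

/-- There is an essential null-homologous simple closed curve on `Surf`: the neck `u = 0`. -/
theorem exists_neck : ∃ c : Curve Surf, c.loop.Essential ∧ c.loop.NullHomologous := by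
  obtain ⟨c, hc⟩ := nck
  exact ⟨c, ess _ hc, nullHomologous_of_nh (nul _ hc)⟩

/-- `S` is a closed surface: compact, connected, Hausdorff, and every point has an open
neighbourhood homeomorphic to the plane. -/
def ClosedSurface (S : Type) [TopologicalSpace S] : Prop :=
  CompactSpace S ∧ ConnectedSpace S ∧ T2Space S ∧
    ∀ q : S, ∃ U : Set S, IsOpen U ∧ q ∈ U ∧ Nonempty (U ≃ₜ ℂ)

/-- There is an essential null-homologous simple closed curve on `S`. -/
def HasSeparatingCurve (S : Type) [TopologicalSpace S] : Prop :=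
  ∃ c : Curve S, c.loop.Essential ∧ c.loop.NullHomologous

/-- `c` is isolated in `Γ`: all curves of `Γ` can be pulled off `c`, and for every realization of
`Γ` in pairwise minimal position a simple closed curve homotopic to `c` lies in the complement of
all curves, in a component that is not a disk. -/
def Isolated {S : Type} [TopologicalSpace S] (c : Curve S) (Γ : Set (Cls S)) : Prop :=
  (∀ γ ∈ Γ, geo c.cls γ = 0) ∧
    ∀ R : Realization Γ, ∃ c' : Curve S, c'.cls = c.cls ∧ c'.img ⊆ R.compl ∧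
      ∀ x ∈ c'.img, ¬ IsDisk (connectedComponentIn R.compl x)

/-- For every realization of `Γ` in pairwise minimal position some component of the complement of
the curves is not a disk. -/
def NeverFills {S : Type} [TopologicalSpace S] (Γ : Set (Cls S)) : Prop :=
  ∀ R : Realization Γ, ∃ x ∈ R.compl, ¬ IsDisk (connectedComponentIn R.compl x)

theorem NeverFills.not_fills {S : Type} [TopologicalSpace S] {Γ : Set (Cls S)}
    (h : NeverFills Γ) : ¬ Fills Γ := by
  rintro ⟨R, hR⟩
  obtain ⟨x, hx, h1⟩ := h R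
  exact h1 (hR x hx)

/-- There is a maximal 1-system on `S` which does not fill. -/
def HasNonFillingMaximalSystem (S : Type) [TopologicalSpace S] : Prop :=
  ∃ Γ : Set (Cls S), MaximalOneSystem Γ ∧ NeverFills Γ ∧ ¬ Fills Γ

/-- The general theorem. -/
theorem general (S : Type) [TopologicalSpace S] [T2Space S] (c : Curve S)
    (hess : c.loop.Essential) (hnh : c.loop.NullHomologous) :
    (∃ Γ : Set (Cls S), MaximalOneSystem Γ ∧ c.cls ∈ Γ) ∧
    ∀ Γ : Set (Cls S), MaximalOneSystem Γ → c.cls ∈ Γ →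
      Isolated c Γ ∧ NeverFills Γ ∧ ¬ Fills Γ := by
  constructor
  · obtain ⟨Γ, hsub, hmax⟩ := exists_maximal (oneSystem_singleton hess)
    exact ⟨Γ, hmax, hsub rfl⟩
  · intro Γ hΓ hcΓ
    obtain ⟨h1, h2⟩ := gen_part avo' c hess (nh_of_nullHomologous hnh) Γ hΓ.1 hcΓ
    have h3 : NeverFills Γ := by
      intro R
      obtain ⟨c', -, h3, h4⟩ := h2 R
      exact ⟨c'.loop 0, h3 ⟨0, rfl⟩, h4 _ ⟨0, rfl⟩⟩
    exact ⟨⟨h1, h2⟩, h3, h3.not_fills⟩

theorem closedSurface_surf : ClosedSurface Surf := ⟨man.1, man.2.1, inferInstance, man.2.2⟩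

theorem hasNonFilling_surf : HasNonFillingMaximalSystem Surf := by
  obtain ⟨c, hess, hnh⟩ := exists_neck
  obtain ⟨⟨Γ, hmax, hcΓ⟩, h⟩ := general Surf c hess hnh
  obtain ⟨-, h2, h3⟩ := h Γ hmax hcΓ
  exact ⟨Γ, hmax, h2, h3⟩

end Pool.Agent.N241.MS
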