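import Pool.Agent.N241.MS.Stm

/-!
# The general theorem: a maximal 1-system that contains a null-homologous curve does not fill
-/

set_option autoImplicit false

open Topology unitInterval

namespace Pool.Agent.N241.MS

open Pool.Agent.H659R3.BigMCG (HasWinding)

variable {S : Type} [TopologicalSpace S]

theorem NH.rev {l : Loop S} (h : NH l) : NH (Loop.rev l) := by
  intro φ
  obtain ⟨L, hLc, hL, hp⟩ := h φ
  refine ⟨fun t => L (-t), by fun_prop, fun t => ?_, fun t => ?_⟩
  · rw [hL]; simp [Loop.rev]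
  · have := hp (-(t + 1))
    rw [show -(t + 1) + 1 = -t by ring] at this
    simp only [Int.cast_zero, zero_mul, add_zero] at this ⊢
    exact this.symm

theorem NH.homotopic {l l' : Loop S} (h : NH l) (hh : l.Homotopic l') : NH l' := by
  intro φ
  obtain ⟨H⟩ := hh
  have hc : Continuous fun p : I × ℝ => ((φ (H (p.1, (p.2 : S1)))) : ℂ) := by
    refine continuous_subtype_val.comp (φ.continuous.comp (H.continuous.comp ?_))
    exact continuous_fst.prodMk ((AddCircle.continuous_mk' 1).comp continuous_snd)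
  have key := HasWinding.homotopy (K := fun p : I × ℝ => ((φ (H (p.1, (p.2 : S1)))) : ℂ)) hc
    (fun p => (φ (H (p.1, (p.2 : S1)))).2)
    (fun s t => by
      have : ((t + 1 : ℝ) : S1) = (t : S1) := by
        rw [AddCircle.coe_add, AddCircle.coe_period, add_zero]
      simp only [this])
    (n := 0) (by simpa using h φ) 1
  simpa using key

theorem NH.htp {l l' : Loop S} (h : NH l) (hh : Loop.Htp l l') : NH l' := by
  rcases hh with hh | hh
  · exact h.homotopic hh
  · have := (h.homotopic hh).rev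
    rwa [Loop.rev_rev] at this

theorem essential_of_homotopic {l l' : Loop S} (h : l.Essential) (hh : l.Homotopic l') :
    l'.Essential :=
  fun x hx => h x (hh.trans hx)

theorem essential_rev {l : Loop S} (h : l.Essential) : (Loop.rev l).Essential := by
  intro x hx
  have := Loop.homotopic_rev hx
  rw [Loop.rev_rev] at this
  refine h x ?_
  exact this

theorem essential_htp {l l' : Loop S} (h : l.Essential) (hh : Loop.Htp l l') : l'.Essential := by
  rcases hh with hh | hh
  · exact essential_of_homotopic h hh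
  · have := essential_rev (essential_of_homotopic h hh)
    rwa [Loop.rev_rev] at this

theorem cls_eq_iff (c c' : Curve S) : c.cls = c'.cls ↔ Loop.Htp c.loop c'.loop :=
  ⟨fun h => Quotient.exact h, fun h => Quotient.sound h⟩

theorem cls_surj (γ : Cls S) : ∃ c : Curve S, c.cls = γ := Quotient.exists_rep γ

/-- Curves are injective. -/
theorem Curve.inj (c : Curve S) : Function.Injective c.loop := by
  obtain ⟨K, hK, h0⟩ := c.collar
  intro s t h
  rw [← h0, ← h0] at h
  have := hK.injective h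
  simpa using this

/-- The parallel curves in an annulus. -/
def par (K : S1 × ℝ → S) (hK : IsOpenEmbedding K) (s : ℝ) : Curve S where
  loop := ⟨fun t => K (t, s), hK.continuous.comp (by fun_prop)⟩
  collar := by
    refine ⟨fun p => K (p.1, p.2 + s), ?_, fun t => by simp⟩
    exact hK.comp ((Homeomorph.refl S1).prodCongr (Homeomorph.addRight s)).isOpenEmbedding

theorem par_img (K : S1 × ℝ → S) (hK : IsOpenEmbedding K) (s : ℝ) :
    (par K hK s).img = Set.range fun t => K (t, s) := rfl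

theorem par_htp (K : S1 × ℝ → S) (hK : IsOpenEmbedding K) (s s' : ℝ) :
    (par K hK s).loop.Homotopic (par K hK s').loop := by
  refine ⟨⟨⟨fun p : I × S1 => K (p.2, (1 - (p.1 : ℝ)) * s + p.1 * s'), ?_⟩, ?_, ?_⟩⟩
  · exact hK.continuous.comp (by fun_prop)
  · intro t; simp [par]
  · intro t; simp [par]

theorem par_cls {c : Curve S} (K : S1 × ℝ → S) (hK : IsOpenEmbedding K)
    (h0 : ∀ t, K (t, 0) = c.loop t) (s : ℝ) : (par K hK s).cls = c.cls := by
  rw [cls_eq_iff]
  have h1 := par_htp K hK s 0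
  have h2 : (par K hK 0).loop = c.loop := by
    ext t; exact h0 t
  rw [h2] at h1
  exact Or.inl h1

theorem geo_le (c c' : Curve S) : geo c.cls c'.cls ≤ (c.img ∩ c'.img).encard :=
  iInf_le_of_le c (iInf_le_of_le c' (iInf_le_of_le rfl (iInf_le _ rfl)))

theorem geo_self (c : Curve S) : geo c.cls c.cls = 0 := by
  obtain ⟨K, hK, h0⟩ := c.collar
  have h1 := geo_le c (par K hK 1)
  rw [par_cls K hK h0] at h1
  have h2 : c.img ∩ (par K hK 1).img = ∅ := by
    ext x
    simp only [Set.mem_inter_iff, Set.mem_empty_iff_false, iff_false, not_and]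
    rintro ⟨t, rfl⟩ ⟨t', ht'⟩
    change K (t', 1) = c.loop t at ht'
    rw [← h0] at ht'
    have := hK.injective ht'
    simp at this
  rw [h2, Set.encard_empty] at h1
  exact le_antisymm h1 zero_le

theorem geo_symm (γ γ' : Cls S) : geo γ γ' = geo γ' γ := by
  unfold geo
  rw [iInf_comm]
  congr 1; funext c; congr 1; funext c'
  rw [iInf_comm]
  simp only [Set.inter_comm]

theorem exists_reps {γ γ' : Cls S} (h : geo γ γ' ≤ 1) : ∃ c c' : Curve S, c.cls = γ ∧
    c'.cls = γ' ∧ (c.img ∩ c'.img).encard ≤ 1 := by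
  have h1 : geo γ γ' < 2 := lt_of_le_of_lt h (by norm_num)
  unfold geo at h1
  simp only [iInf_lt_iff] at h1
  obtain ⟨c, c', h, h', h2⟩ := h1
  refine ⟨c, c', h, h', ?_⟩
  rw [← not_lt]
  intro h3
  have : (1 : ℕ∞) + 1 ≤ (c.img ∩ c'.img).encard := Order.add_one_le_of_lt h3
  rw [one_add_one_eq_two] at this
  exact absurd h2 (not_lt.2 this)

theorem exists_disjoint (havo : S_AVO) [T2Space S] {c b : Curve S} (hc : NH c.loop)
    (h : (c.img ∩ b.img).encard ≤ 1) : ∃ b' : Curve S, b'.cls = b.cls ∧ c.img ∩ b'.img = ∅ := by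
  obtain ⟨K, hK, h0⟩ := b.collar
  have hb : b.img = Set.range fun t => K (t, 0) := by
    unfold Curve.img
    congr 1
    funext t
    exact (h0 t).symm
  rw [hb] at h
  obtain ⟨s, hs⟩ := havo S c.loop c.inj hc K hK h
  refine ⟨par K hK s, par_cls K hK h0 s, ?_⟩
  ext x
  simp only [Set.mem_inter_iff, Set.mem_empty_iff_false, iff_false, not_and]
  rintro hx ⟨t, rfl⟩
  exact hs t hx

theorem geo_zero (havo : S_AVO) [T2Space S] {c : Curve S} (hc : NH c.loop) {γ : Cls S}
    (h : geo c.cls γ ≤ 1) : geo c.cls γ = 0 := by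
  obtain ⟨c', b, hc', rfl, h1⟩ := exists_reps h
  have h2 : NH c'.loop := hc.htp (((cls_eq_iff _ _).1 hc').symm)
  obtain ⟨b', hb', h3⟩ := exists_disjoint havo h2 h1
  have h4 := geo_le c' b'
  rw [h3, Set.encard_empty, hb', hc'] at h4
  exact le_antisymm h4 zero_le

theorem oneSystem_singleton {c : Curve S} (hc : c.loop.Essential) : OneSystem {c.cls} := by
  refine ⟨?_, ?_⟩
  · rintro γ rfl c' hc'
    exact essential_htp hc (((cls_eq_iff _ _).1 hc').symm)
  · rintro γ rfl γ' rfl
    rw [geo_self]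
    exact zero_le

theorem exists_maximal {Γ₀ : Set (Cls S)} (h : OneSystem Γ₀) :
    ∃ Γ : Set (Cls S), Γ₀ ⊆ Γ ∧ MaximalOneSystem Γ := by
  obtain ⟨m, hm, hmax⟩ := zorn_subset_nonempty {Γ : Set (Cls S) | OneSystem Γ} (by
    intro C hC hchain hne
    refine ⟨⋃₀ C, ⟨?_, ?_⟩, fun s hs => Set.subset_sUnion_of_mem hs⟩
    · rintro γ ⟨Γ, hΓ, hγ⟩
      exact (hC hΓ).1 γ hγ
    · rintro γ ⟨Γ, hΓ, hγ⟩ γ' ⟨Γ', hΓ', hγ'⟩
      rcases hchain.total hΓ hΓ' with hh | hh
      · exact (hC hΓ').2 γ (hh hγ) γ' hγ'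
      · exact (hC hΓ).2 γ hγ γ' (hh hγ')) Γ₀ h
  exact ⟨m, hm, hmax.prop, fun Γ' h' hsub => Set.Subset.antisymm (hmax.le_of_ge h' hsub) hsub⟩

theorem not_isDisk (M : Set S) (l : Loop S) (hM : ∀ t, l t ∈ M)
    (hl : l.Essential) (t₀ : S1) : ¬ IsDisk (connectedComponentIn M (l t₀)) := by
  rintro ⟨e⟩
  set U := connectedComponentIn M (l t₀) with hU
  have hconn : IsPreconnected (Set.range l) := isPreconnected_range l.continuous
  have hsub : Set.range l ⊆ U :=
    hconn.subset_connectedComponentIn ⟨t₀, rfl⟩ (by rintro _ ⟨t, rfl⟩; exact hM t)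
  let l' : C(S1, U) := ⟨fun t => ⟨l t, hsub ⟨t, rfl⟩⟩, by fun_prop⟩
  have : ContractibleSpace U := e.contractibleSpace
  obtain ⟨x, hx⟩ := id_nullhomotopic U
  have h1 : l'.Homotopic (ContinuousMap.const _ x) := by
    have := hx.comp (ContinuousMap.Homotopic.refl l')
    simpa using this
  have h2 := (ContinuousMap.Homotopic.refl (⟨Subtype.val, continuous_subtype_val⟩ : C(U, S))).comp h1
  refine hl x ?_
  exact h2

/-- A 1-system (in particular a maximal one) that contains an essential null-homologous curve `c`: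
its other curves can be pulled off `c`, and it does not fill. -/
theorem gen_part (havo : S_AVO) [T2Space S] (c : Curve S) (hess : c.loop.Essential)
    (hnh : NH c.loop) (Γ : Set (Cls S)) (hΓ : OneSystem Γ) (hcΓ : c.cls ∈ Γ) :
    (∀ γ ∈ Γ, geo c.cls γ = 0) ∧
    ∀ R : Realization Γ, ∃ c' : Curve S, c'.cls = c.cls ∧ c'.img ⊆ R.compl ∧
      ∀ x ∈ c'.img, ¬ IsDisk (connectedComponentIn R.compl x) := by
  have hgeo : ∀ γ ∈ Γ, geo c.cls γ = 0 := fun γ hγ =>
    geo_zero havo hnh (hΓ.2 _ hcΓ _ hγ)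
  refine ⟨hgeo, ?_⟩
  intro R
  classical
  let γ₀ : Γ := ⟨c.cls, hcΓ⟩
  obtain ⟨K, hK, h0⟩ := (R.rep γ₀).collar
  -- the union of the other curves
  let F : Γ → Set S := fun γ => if γ = γ₀ then ∅ else (R.rep γ).img
  have hFsub : ∀ γ, F γ ⊆ (R.rep γ).img := by
    intro γ
    by_cases h : γ = γ₀
    · simp [F, h]
    · simp [F, h]
  have hF : LocallyFinite F := R.locFin.subset hFsub
  have hFc : ∀ γ, IsClosed (F γ) := by
    intro γ
    by_cases h : γ = γ₀
    · simp [F, h]
    · simp only [F, h, if_false]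
      exact (isCompact_range (R.rep γ).loop.continuous).isClosed
  have hB : IsClosed (⋃ γ, F γ) := hF.isClosed_iUnion hFc
  have hdisj : ∀ t, K (t, 0) ∉ ⋃ γ, F γ := by
    intro t ht
    obtain ⟨γ, hγ⟩ := Set.mem_iUnion.1 ht
    by_cases h : γ = γ₀
    · simp [F, h] at hγ
    · have h1 := R.minimal γ₀ γ (Ne.symm h)
      rw [hgeo γ γ.2, Set.encard_eq_zero] at h1
      have h2 : K (t, 0) ∈ (R.rep γ₀).img ∩ (R.rep γ).img :=
        ⟨⟨t, (h0 t).symm⟩, hFsub γ hγ⟩
      rw [h1] at h2
      exact h2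
  have hev : ∀ᶠ s : ℝ in 𝓝 0, ∀ t ∈ (Set.univ : Set S1), K (t, s) ∉ ⋃ γ, F γ := by
    refine isCompact_univ.eventually_forall_of_forall_eventually ?_
    intro t _
    have hc : Continuous fun z : ℝ × S1 => K (z.2, z.1) := hK.continuous.comp (by fun_prop)
    exact (hB.isOpen_compl.preimage hc).mem_nhds (hdisj t)
  obtain ⟨η, hη, hball⟩ := Metric.eventually_nhds_iff.1 hev
  have hs : ∀ t, K (t, η / 2) ∉ ⋃ γ, F γ := fun t =>
    hball (by rw [Real.dist_eq, sub_zero, abs_of_pos (by positivity)]; linarith) t (Set.mem_univ t)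
  have hcompl : ∀ t, K (t, η / 2) ∈ R.compl := by
    intro t ht
    obtain ⟨γ, hγ⟩ := Set.mem_iUnion.1 ht
    by_cases h : γ = γ₀
    · subst h
      obtain ⟨t', ht'⟩ := hγ
      rw [← h0] at ht'
      have := hK.injective ht'
      have h2 := congrArg Prod.snd this
      simp only at h2
      linarith
    · refine hs t (Set.mem_iUnion.2 ⟨γ, ?_⟩)
      simp only [F, h, if_false]
      exact hγ
  let l : Loop S := (par K hK (η / 2)).loop
  have hl : l.Essential := by
    have h1 : (par K hK (η / 2)).cls = c.cls := by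
      rw [par_cls K hK h0, R.cls_rep]
    exact essential_htp hess (((cls_eq_iff _ _).1 h1).symm)
  refine ⟨par K hK (η / 2), ?_, ?_, ?_⟩
  · rw [par_cls K hK h0, R.cls_rep]
  · rintro _ ⟨t, rfl⟩
    exact hcompl t
  · rintro _ ⟨t, rfl⟩
    exact not_isDisk R.compl l hcompl hl t

theorem gen (havo : S_AVO) : S_GEN := by
  intro S _ _ c hess hnh
  obtain ⟨Γ, hsub, hmax⟩ := exists_maximal (oneSystem_singleton hess)
  have hcΓ : c.cls ∈ Γ := hsub rfl
  obtain ⟨hgeo, hR⟩ := gen_part havo c hess hnh Γ hmax.1 hcΓ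
  refine ⟨Γ, hmax, hcΓ, hgeo, fun R => ?_⟩
  obtain ⟨c', -, h1, h2⟩ := hR R
  exact ⟨c'.loop 0, h1 ⟨0, rfl⟩, h2 _ ⟨0, rfl⟩⟩

end Pool.Agent.N241.MS
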