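import Pool.Agent.N241.MS.Gen

/-!
# Null-homologous loops
-/

set_option autoImplicit false

open Topology unitInterval

namespace Pool.Agent.N241.MS

open Pool.Agent.H659R3.BigMCG (HasWinding)

variable {S : Type} [TopologicalSpace S]

/-- A loop is null-homologous: every continuous map from `S` to the unit circle restricts to a
null-homotopic map on the loop. (For a simple loop on a closed orientable surface this says that
it separates the surface.) -/
def Loop.NullHomologous (l : Loop S) : Prop :=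
  ∀ φ : C(S, Circle), ∃ z : Circle, (φ.comp l).Homotopic (ContinuousMap.const _ z)

theorem hasWinding_of_homotopic {g g' : C(S1, Cx)} (h : g.Homotopic g') {n : ℤ}
    (hg : HasWinding (fun t : ℝ => (g (t : S1) : ℂ)) n) :
    HasWinding (fun t : ℝ => (g' (t : S1) : ℂ)) n := by
  obtain ⟨H⟩ := h
  have hc : Continuous fun p : I × ℝ => ((H (p.1, (p.2 : S1))) : ℂ) := by
    refine continuous_subtype_val.comp (H.continuous.comp ?_)
    exact continuous_fst.prodMk ((AddCircle.continuous_mk' 1).comp continuous_snd)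
  have key := HasWinding.homotopy (K := fun p : I × ℝ => ((H (p.1, (p.2 : S1))) : ℂ)) hc
    (fun p => (H (p.1, (p.2 : S1))).2)
    (fun s t => by
      have : ((t + 1 : ℝ) : S1) = (t : S1) := by
        rw [AddCircle.coe_add, AddCircle.coe_period, add_zero]
      simp only [this])
    (n := n) (by simpa using hg) 1
  simpa using key

theorem nh_of_nullHomologous {l : Loop S} (h : l.NullHomologous) : NH l := by
  intro φ
  have h0 : ∀ x, (φ x : ℂ) ≠ 0 := fun x => (φ x).2
  have hn : ∀ x, ‖(φ x : ℂ)‖ ≠ 0 := fun x => norm_ne_zero_iff.2 (h0 x)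
  let ψ : C(S, Circle) :=
    ⟨fun x => ⟨(φ x : ℂ) / ‖(φ x : ℂ)‖, mem_sphere_zero_iff_norm.2 (by
      rw [norm_div, Complex.norm_real, norm_norm, div_self (hn x)])⟩, by
      refine Continuous.subtype_mk ?_ _
      refine Continuous.div (continuous_subtype_val.comp φ.continuous) ?_ ?_
      · exact Complex.continuous_ofReal.comp (continuous_subtype_val.comp φ.continuous).norm
      · intro x; exact_mod_cast hn x⟩
  obtain ⟨z, hz⟩ := h ψ
  let ι : C(Circle, Cx) := ⟨fun w => ⟨(w : ℂ), Circle.coe_ne_zero w⟩, by fun_prop⟩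
  have h1 := (ContinuousMap.Homotopic.refl ι).comp hz
  have h2 : HasWinding (fun t : ℝ => (((ι.comp (ContinuousMap.const S1 z)) (t : S1) : Cx) : ℂ)) 0 := by
    refine ⟨fun _ => Complex.log z, continuous_const, fun t => ?_, fun t => by simp⟩
    exact Complex.exp_log (Circle.coe_ne_zero z)
  have h3 := hasWinding_of_homotopic h1.symm h2
  have hlc : Continuous fun t : ℝ => l (t : S1) :=
    l.continuous.comp (AddCircle.continuous_mk' 1)
  refine HasWinding.of_slit h3 ?_ ?_ ?_ ?_
  · exact continuous_subtype_val.comp ((ι.comp (ψ.comp l)).continuous.comp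
      (AddCircle.continuous_mk' 1))
  · exact continuous_subtype_val.comp (φ.continuous.comp hlc)
  · intro t
    have : ((t + 1 : ℝ) : S1) = (t : S1) := by
      rw [AddCircle.coe_add, AddCircle.coe_period, add_zero]
    rw [this]
  · intro t
    have e1 : (((ι.comp (ψ.comp l)) (t : S1) : Cx) : ℂ) =
        (φ (l (t : S1)) : ℂ) / ‖(φ (l (t : S1)) : ℂ)‖ := rfl
    have e2 : (φ (l (t : S1)) : ℂ) / (((ι.comp (ψ.comp l)) (t : S1) : Cx) : ℂ) =
        ((‖(φ (l (t : S1)) : ℂ)‖ : ℝ) : ℂ) := by
      rw [e1, div_div_eq_mul_div, mul_comm, mul_div_assoc, div_self (h0 _), mul_one]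
    show (φ (l (t : S1)) : ℂ) / (((ι.comp (ψ.comp l)) (t : S1) : Cx) : ℂ) ∈ Complex.slitPlane
    rw [e2, Complex.ofReal_mem_slitPlane]
    exact norm_pos_iff.2 (h0 _)

theorem nullHomologous_of_nh {l : Loop S} (h : NH l) : l.NullHomologous := by
  intro φ
  let ι : C(Circle, Cx) := ⟨fun w => ⟨(w : ℂ), Circle.coe_ne_zero w⟩, by fun_prop⟩
  obtain ⟨L, hLc, hL, hp⟩ := h (ι.comp φ)
  have hL' : ∀ t, Complex.exp (L t) = (φ (l (t : S1)) : ℂ) := hL
  have hper : Function.Periodic (fun t => (L t).im) (1 : ℝ) := by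
    intro t
    have := hp t
    simp only [Int.cast_zero, zero_mul, add_zero] at this
    simp only [this]
  let A : C(S1, ℝ) := ⟨hper.lift, continuous_coinduced_dom.2 (by
    exact Complex.continuous_im.comp hLc)⟩
  have hA : ∀ t : ℝ, A (t : S1) = (L t).im := fun t => rfl
  have hφ : ∀ x : S1, φ (l x) = Circle.exp (A x) := by
    intro x
    induction x using QuotientAddGroup.induction_on with
    | H t =>
      have h1 : ‖Complex.exp (L t)‖ = 1 := by rw [hL']; exact Circle.norm_coe _
      rw [Complex.norm_exp, Real.exp_eq_one_iff] at h1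
      apply Circle.ext
      have h2 : (L t) = ((L t).im : ℂ) * Complex.I := by
        apply Complex.ext <;> simp [h1]
      show (φ (l (t : S1)) : ℂ) = ((Circle.exp (A (t : S1)) : Circle) : ℂ)
      rw [Circle.coe_exp, hA, ← h2, hL']
  refine ⟨1, ⟨⟨⟨fun p : I × S1 => Circle.exp ((1 - (p.1 : ℝ)) * A p.2), by fun_prop⟩, ?_, ?_⟩⟩⟩
  · intro x
    simp [hφ]
  · intro x
    simp

end Pool.Agent.N241.MS
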