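import Pool.Agent.N241.MS.Stm

/-!
# `Surf` is a closed surface (statement)
-/

set_option autoImplicit false

open Topology

namespace Pool.Agent.N241.MS

/-- (MAN) `Surf` is a compact connected surface. -/
def S_MAN : Prop := CompactSpace Surf ∧ ConnectedSpace Surf ∧
  ∀ q : Surf, ∃ U : Set Surf, IsOpen U ∧ q ∈ U ∧ Nonempty (U ≃ₜ ℂ)

end Pool.Agent.N241.MS
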